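import Pool.Agent.helper24_UT.Ch13
import Pool.Agent.helper24_UT.Ch10

set_option autoImplicit false

/-!
# Goldbach representations with one prime in the initial segment `(1, 1 + K]`, `K ≥ X ^ (1 / 3 + ε)`, for almost all `n ≤ X`

The work of helper24 (`Pool.Agent.helper24_UT.Ch.t_R15`) treats Goldbach representations of almost all `n ≤ X` with one prime in almost all short
intervals `(x, x + K]`. Here the interval is fixed: `(1, 1 + K]`.
-/

namespace Pool.Agent.Helper481.Fix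

open Finset
open Pool.Agent.helper24_UT
open Pool.Agent.H373R2.T7 (lamI lamzI lamz Vz pz lamP)
open Pool.Agent.H807R2.Dav (ee)

/-- Goldbach representations with one prime in `(1, 1 + K]`, minus sieve model -/
def S_SG1 (θ : ℝ) : Prop := ∀ e A : ℕ, 1 ≤ e → ∃ E₀ B : ℕ, ∀ E₁ : ℕ, ∃ X₀ : ℕ, ∀ X : ℕ, X₀ ≤ X → ∀ K : ℕ,
  (X : ℝ) ^ (θ + 1 / e : ℝ) ≤ K → K ≤ X → ∀ z : ℕ, (Real.log X) ^ E₀ ≤ z → (z : ℝ) ≤ (Real.log X) ^ E₁ →
  ∀ Q : ℕ, (Q : ℝ) * (Real.log X) ^ B ≤ K → ∀ y : ℕ → ℕ → ℕ → ℕ → ℕ, (∀ x n q r, y x n q r ≤ K) →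
  ∑ x ∈ Icc 1 1, ∑ n ∈ Icc 1 X, ∑ q ∈ Icc 1 Q, ∑ r ∈ range q,
    (∑ m ∈ (Ioc x (x + y x n q r)).filter (fun m => m % q = r),
      (lamI (m : ℤ) * lamI ((n : ℤ) - m) - lamzI z (m : ℤ) * lamzI z ((n : ℤ) - m))) ^ 2 ≤
    (X : ℝ) * (K : ℝ) ^ 2 / (Real.log X) ^ A

open Classical in
/-- Goldbach representations of almost all numbers with one prime in `(1, 1 + K]` -/
def S_G1 (θ : ℝ) : Prop := ∀ e A : ℕ, 1 ≤ e → ∃ B X₀ : ℕ, ∀ X : ℕ, X₀ ≤ X → ∀ K : ℕ,
  (X : ℝ) ^ (θ + 1 / e : ℝ) ≤ K → K ≤ X →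
  (((Icc 1 X).filter (fun n => ¬ Good15 A B X K 1 n)).card : ℝ) ≤ (X : ℝ) / (Real.log X) ^ A

end Pool.Agent.Helper481.Fix

namespace Pool.Agent.Helper481.Fix.R

open Finset
open Pool.Agent.helper24_UT Pool.Agent.Helper481.Fix
open Pool.Agent.helper24_UT.R15
open Pool.Agent.H373R2.T7 (lamI lamzI lamz Vz pz lamP)
open Pool.Agent.H807R2.Dav (ee)

theorem main2 : ∀ θ : ℝ, 0 ≤ θ → S_SG1 θ → S_MTS → S_SRT → S_SLB → S_G1 θ := by
  intro θ hθ hGo hM hR _ e A he
  classical
  obtain ⟨E0, B1, hGo⟩ := hGo e (2 * A + 1) he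
  obtain ⟨B2, N2, hM⟩ := hM 2 (E0 + A + 10 + 1 + 1) (A + 2 + 1)
  obtain ⟨N1, hGo⟩ := hGo (E0 + A + 10 + 1)
  obtain ⟨N3, hR⟩ := hR 2
  obtain ⟨N4, hV⟩ := Pool.Agent.H373R2.T7.Vz_inv_small (E0 + A + 10 + 1)
  obtain ⟨N5, h5⟩ := evN A B1 ((e : ℝ) ^ (E0 + A + 10 + 1 + 1) + (e : ℝ) ^ (A + 2 + 1) + e * (N2 + 1))
  refine ⟨B2 + 1, N1 + N3 + N4 + N5, fun X hX K hK hKX => ?_⟩
  obtain ⟨hX1, hL, hl, hLe⟩ := h5 X (by omega)
  set L := Real.log X with hLdef
  set l := Real.log L with hldef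
  have hL0 : 0 < L := by linarith
  have hX0 : (0 : ℝ) < X := by exact_mod_cast hX1
  have hX1' : (1 : ℝ) ≤ X := by exact_mod_cast hX1
  have hle : Real.exp l = L := Real.exp_log hL0
  -- the length of the window
  have he0 : (0 : ℝ) < e := by exact_mod_cast (by omega : 0 < e)
  have hep1 : (0 : ℝ) < (e : ℝ) ^ (E0 + A + 10 + 1 + 1) := by positivity
  have hep2 : (0 : ℝ) < (e : ℝ) ^ (A + 2 + 1) := by positivity
  have hep3 : (0 : ℝ) ≤ e * (N2 + 1) := by positivity
  have hKe : Real.exp (L / e) ≤ K := by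
    refine le_trans ?_ hK
    have h1 : Real.exp (L / e) = (X : ℝ) ^ (1 / e : ℝ) := by
      rw [Real.rpow_def_of_pos hX0]
      congr 1
      rw [hLdef]
      ring
    rw [h1]
    apply Real.rpow_le_rpow_of_exponent_le hX1'
    linarith
  have hLe1 : (N2 : ℝ) + 1 ≤ L / e := by
    rw [le_div_iff₀ he0]
    nlinarith
  have hN2K : N2 ≤ K := by
    have h1 := Real.add_one_le_exp (L / e)
    have h2 : (N2 : ℝ) ≤ K := by linarith
    exact_mod_cast h2
  have hK0 : (0 : ℝ) < K := lt_of_lt_of_le (Real.exp_pos _) hKe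
  have hK1 : 1 ≤ K := by exact_mod_cast hK0
  have hlK1 : L / e ≤ Real.log K := by
    rw [Real.le_log_iff_exp_le hK0]
    exact hKe
  have hlK2 : Real.log K ≤ L := Real.log_le_log hK0 (by exact_mod_cast hKX)
  have hlK3 : 1 ≤ Real.log K := by
    have : (0 : ℝ) ≤ N2 := Nat.cast_nonneg _
    linarith
  have hpw1 : L ^ (E0 + A + 10 + 1) ≤ Real.log K ^ (E0 + A + 10 + 1 + 1) :=
    powcmp L (Real.log K) e (E0 + A + 10 + 1) he0 hL0.le (by linarith) hlK1
  have hpw2 : L ^ (A + 2) ≤ Real.log K ^ (A + 2 + 1) :=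
    powcmp L (Real.log K) e (A + 2) he0 hL0.le (by linarith) hlK1
  -- the level
  set z : ℕ := ⌈L ^ (E0 + A + 10)⌉₊ with hzdef
  have hz1 : L ^ (E0 + A + 10) ≤ z := Nat.le_ceil _
  have hz2 : (z : ℝ) ≤ L ^ (E0 + A + 10 + 1) := by
    have h1 : (z : ℝ) < L ^ (E0 + A + 10) + 1 := Nat.ceil_lt_add_one (by positivity)
    have h2 : 1 ≤ L ^ (E0 + A + 10) := one_le_pow₀ (by linarith)
    rw [pow_succ]
    nlinarith
  have hzE : L ^ E0 ≤ z := (pow_le_pow_right₀ (by linarith) (by omega)).trans hz1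
  have hz3 : L ^ 3 ≤ z := (pow_le_pow_right₀ (by linarith) (by omega)).trans hz1
  have hzA : L ^ (A + 10) ≤ z := (pow_le_pow_right₀ (by linarith) (by omega)).trans hz1
  have hz0 : (0 : ℝ) < z := lt_of_lt_of_le (by positivity) hz3
  have hz1' : 1 ≤ z := by exact_mod_cast hz0
  have hVL : (Vz z)⁻¹ ≤ L := hV X (by omega) z hz1' hz2
  have hV0 : 0 ≤ (Vz z)⁻¹ := inv_nonneg.2 (Pool.Agent.H373R2.T7.Vz_pos z).le
  -- the exponentials
  set x0 : ℝ := Real.exp (-(((B2 + 1 : ℕ) : ℝ) * l ^ 2)) with hx0def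
  set v : ℝ := Real.exp (B2 * l ^ 2) with hv
  have hXv : x0 * v = Real.exp (-l ^ 2) := by
    rw [hx0def, hv, ← Real.exp_add]
    congr 1
    push_cast
    ring
  have hv1 : 1 ≤ v := Real.one_le_exp (by positivity)
  have hx00 : 0 < x0 := Real.exp_pos _
  have hXl : x0 ≤ Real.exp (-l ^ 2) := by
    rw [← hXv]
    nlinarith
  have hl0 : 0 ≤ l := by
    have : (0 : ℝ) ≤ A + B1 + 10 := by positivity
    linarith
  have hpow : ∀ k : ℕ, (k : ℝ) ≤ l → Real.exp (-l ^ 2) * L ^ k ≤ 1 := by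
    intro k hk
    have e1 : L ^ k = Real.exp (k * l) := by rw [Real.exp_nat_mul, hle]
    rw [e1, ← Real.exp_add]
    apply Real.exp_le_one_iff.2
    nlinarith
  have hx01 : x0 ≤ 1 := by
    have := hpow 0 (by push_cast; exact hl0)
    rw [pow_zero, mul_one] at this
    linarith
  have hvK : Real.exp (B2 * Real.log (Real.log K) ^ 2) ≤ v := by
    rw [hv]
    apply Real.exp_le_exp.2
    apply mul_le_mul_of_nonneg_left _ (Nat.cast_nonneg _)
    apply pow_le_pow_left₀ (Real.log_nonneg hlK3)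
    exact Real.log_le_log (by linarith) hlK2
  -- the maximal moduli
  set Q0 : ℕ := ⌊(K : ℝ) * x0⌋₊ with hQ0
  have hQ0X : (Q0 : ℝ) ≤ K * x0 := Nat.floor_le (by positivity)
  have hQ0B : (Q0 : ℝ) * L ^ B1 ≤ K := by
    have h1 : x0 * L ^ B1 ≤ 1 := by
      refine le_trans ?_ (hpow B1 (by have : (0 : ℝ) ≤ A := by positivity
                                      linarith))
      exact mul_le_mul_of_nonneg_right hXl (by positivity)
    calc (Q0 : ℝ) * L ^ B1 ≤ K * x0 * L ^ B1 := mul_le_mul_of_nonneg_right hQ0X (by positivity)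
      _ = K * (x0 * L ^ B1) := by ring
      _ ≤ K * 1 := mul_le_mul_of_nonneg_left h1 hK0.le
      _ = K := mul_one _
  -- worst initial segments
  have hmax : ∀ x n q r : ℕ, ∃ t : ℕ, t ≤ K ∧ ∀ t' ≤ K, |Ef z n q r x t'| ≤ |Ef z n q r x t| := by
    intro x n q r
    obtain ⟨t, ht, h⟩ := exists_max_image (range (K + 1)) (fun t => |Ef z n q r x t|) ⟨0, by simp⟩
    exact ⟨t, by rw [mem_range] at ht; omega, fun t' ht' => h t' (by rw [mem_range]; omega)⟩
  choose ts hts hmax using hmax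
  have hGG := hGo X (by omega) K hK hKX z hzE hz2 Q0 hQ0B ts hts
  set G : ℕ × ℕ → ℝ := fun w => ∑ q ∈ Icc 1 Q0, ∑ r ∈ range q, Ef z w.2 q r w.1 (ts w.1 w.2 q r) ^ 2 with hGdef
  have hGG' : ∑ w ∈ Icc 1 1 ×ˢ Icc 1 X, G w ≤ (X : ℝ) * (K : ℝ) ^ 2 / L ^ (2 * A + 1) := by
    rw [sum_product]
    exact hGG
  have hG0 : ∀ w, 0 ≤ G w := fun w => sum_nonneg fun q _ => sum_nonneg fun r _ => sq_nonneg _
  -- the good pairs
  have hgood : ∀ w ∈ Icc 1 1 ×ˢ Icc 1 X, G w ≤ (K : ℝ) ^ 2 / L ^ (A + 1) → Good15 A (B2 + 1) X K w.1 w.2 := by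
    rintro ⟨x, n⟩ hw hGn Q hQ y hy
    rw [mem_product, mem_Icc, mem_Icc] at hw
    obtain ⟨⟨hxa, hxb⟩, hn1, hn2⟩ := hw
    simp only at hxa hxb hn1 hn2 ⊢
    have hQQ0 : Q ≤ Q0 := Nat.le_floor hQ
    have hQK : Q ≤ K := by
      have : (Q : ℝ) ≤ K := by
        refine hQ.trans ?_
        calc (K : ℝ) * x0 ≤ K * 1 := mul_le_mul_of_nonneg_left hx01 hK0.le
          _ = K := mul_one _
      exact_mod_cast this
    set u : ℝ := (K : ℝ) / L ^ (A + 2) + 2 * K * L ^ 4 / z with hu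
    have hc : ∀ q ∈ Icc 1 Q, ∀ r ∈ (range q).filter (fun r : ℕ => r.Coprime q ∧ Int.gcd ((n : ℤ) - r) q = 1),
        |((cntG n q r (x + y q r) : ℝ) - cntG n q r x) - sers sG (hG n) / phf sG (hG n) q *
          (expG n (x + y q r) - expG n x)| ≤
        12 * (ww K n q r x + |Ef z n q r x (ts x n q r)| + u / q + v) := by
      intro q hq r hr
      rw [mem_Icc] at hq
      rw [mem_filter, mem_range] at hr
      obtain ⟨hr1, hr2, hr3⟩ := hr
      have hq0 : (0 : ℝ) < q := by exact_mod_cast hq.1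
      have hσ : ∀ i, sG i = 1 ∨ sG i = -1 := by
        rw [Fin.forall_fin_two]
        simp [sG]
      have hh : ∀ i, |hG n i| ≤ (X : ℤ) := by
        rw [Fin.forall_fin_two]
        simp only [hG, Matrix.cons_val_zero, Matrix.cons_val_one, abs_zero]
        refine ⟨by omega, ?_⟩
        rw [abs_of_nonneg (by omega)]
        omega
      have hne : ∀ i j, i ≠ j → sG i * hG n j ≠ sG j * hG n i := by
        rw [Fin.forall_fin_two]
        rw [Fin.forall_fin_two, Fin.forall_fin_two]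
        simp only [sG, hG, Matrix.cons_val_zero, Matrix.cons_val_one]
        refine ⟨⟨fun h => absurd rfl h, fun _ => by omega⟩, fun _ => by omega, fun h => absurd rfl h⟩
      have hgcd : ∀ i, Int.gcd (sG i * r + hG n i) q = 1 := by
        rw [Fin.forall_fin_two]
        simp only [sG, hG, Matrix.cons_val_zero, Matrix.cons_val_one]
        constructor
        · rw [one_mul, add_zero, Int.gcd_natCast_natCast]
          exact hr2
        · rw [show (-1 : ℤ) * r + n = (n : ℤ) - r by ring]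
          exact hr3
      obtain ⟨hs0, hp0, hgs⟩ := hR X (by omega) sG (hG n) hσ hh hne z hz3 q r hq.1 (by omega) hgcd
      have hp0' : (0 : ℝ) < phf sG (hG n) q := by exact_mod_cast hp0
      set g := gz z sG (hG n) q r with hg
      set c : ℝ := sers sG (hG n) / phf sG (hG n) q with hc
      have hqc : sers sG (hG n) * ((q : ℝ) / phf sG (hG n) q) = q * c := by
        rw [hc]
        field_simp
      have hc0 : 0 ≤ c := div_nonneg hs0 hp0'.le
      rw [hqc] at hgs
      have hz2L : L ^ 2 / z ≤ 1 / 2 := by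
        rw [div_le_iff₀ hz0]
        nlinarith [sq_nonneg L]
      have hg2 : g ≤ L ^ 2 := by
        refine (gz_le z sG (hG n) q r).trans ?_
        exact pow_le_pow_left₀ hV0 hVL 2
      have hs2 : q * c ≤ 2 * L ^ 2 := by
        have h1 : q * c * (L ^ 2 / z) ≤ q * c * (1 / 2) := mul_le_mul_of_nonneg_left hz2L (by positivity)
        have h2 := (abs_le.1 hgs).1
        linarith
      have hgs2 : |g - q * c| ≤ 2 * L ^ 2 * (L ^ 2 / z) :=
        hgs.trans (mul_le_mul_of_nonneg_right hs2 (by positivity))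
      have hD : ∀ s, s ≤ y q r → x + s < n → |PPw n q r x s - s * c| ≤
          ww K n q r x + |Ef z n q r x (ts x n q r)| + ((K : ℝ) / q / L ^ (A + 2) + v) +
            (K : ℝ) / q * (2 * L ^ 2 * (L ^ 2 / z)) := by
        intro s hs hsn
        have hsK : s ≤ K := hs.trans (hy q r)
        have h1 := hM K hN2K z hz1' (hz2.trans hpw1) sG (hG n) hσ x q r s hq.1 hsK
        have h1' : (K : ℝ) / q / Real.log K ^ (A + 2 + 1) + Real.exp (B2 * Real.log (Real.log K) ^ 2) ≤
            (K : ℝ) / q / L ^ (A + 2) + v :=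
          add_le_add (div_le_div_of_nonneg_left (by positivity) (by positivity) hpw2) hvK
        have h2 := pt K z n q r x s (2 * L ^ 2 * (L ^ 2 / z)) _ c g hq.1 hr1 hsK hsn (h1.trans h1') hgs2
        have h3 := hmax x n q r s hsK
        linarith
      have hD0 : 0 ≤ ww K n q r x + |Ef z n q r x (ts x n q r)| + ((K : ℝ) / q / L ^ (A + 2) + v) +
            (K : ℝ) / q * (2 * L ^ 2 * (L ^ 2 / z)) := by
        have := ww_nonneg K n q r x
        have := abs_nonneg (Ef z n q r x (ts x n q r))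
        positivity
      refine (cnt_le n q r x (y q r) c _ hxa hD hD0).trans ?_
      apply mul_le_mul_of_nonneg_left _ (by norm_num)
      have hu2 : u / q = (K : ℝ) / q / L ^ (A + 2) + (K : ℝ) / q * (2 * L ^ 2 * (L ^ 2 / z)) := by
        rw [hu]
        field_simp
      rw [hu2]
      linarith
    have ht := total K X Q n x hX1 hK1 hn1 hn2 (hQK.trans hKX)
      (fun q => (range q).filter (fun r : ℕ => r.Coprime q ∧ Int.gcd ((n : ℤ) - r) q = 1)) (fun q => filter_subset _ _)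
      (fun q r => ((cntG n q r (x + y q r) : ℝ) - cntG n q r x) - sers sG (hG n) / phf sG (hG n) q *
          (expG n (x + y q r) - expG n x))
      (fun q r => Ef z n q r x (ts x n q r)) u v ((K : ℝ) ^ 2 / L ^ (A + 1)) hc
      (by
        refine le_trans ?_ hGn
        apply sum_le_sum_of_subset_of_nonneg (Icc_subset_Icc_right hQQ0)
        intro _ _ _
        exact sum_nonneg fun r _ => sq_nonneg _)
    refine ht.trans ?_
    rw [← hLdef]
    have hA1 : 0 < L ^ (A + 1) := by positivity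
    have hA8 : Real.exp (-l ^ 2) ≤ 1 / L ^ (A + 8) := by
      rw [le_div_iff₀ (by positivity)]
      refine hpow (A + 8) ?_
      push_cast
      have : (0 : ℝ) ≤ B1 := by positivity
      linarith
    have hQX : (Q : ℝ) ≤ K * x0 := hQ
    set W : ℝ := (K : ℝ) ^ 2 / L ^ (A + 1) with hW
    have hW0 : 0 < W := by positivity
    have b1 : (Q : ℝ) * (64 * K * L ^ 6) ≤ W := by
      calc (Q : ℝ) * (64 * K * L ^ 6) ≤ (K * (1 / L ^ (A + 8))) * (64 * K * L ^ 6) := by
            apply mul_le_mul_of_nonneg_right _ (by positivity)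
            exact hQX.trans (mul_le_mul_of_nonneg_left (hXl.trans hA8) hK0.le)
        _ = W * (64 / L) := by
            rw [hW]
            rw [show A + 8 = (A + 1) + 7 by ring, pow_add]
            field_simp
        _ ≤ W * 1 := by
            apply mul_le_mul_of_nonneg_left _ hW0.le
            rw [div_le_one hL0]
            linarith
        _ = W := mul_one _
    have hu3 : u ≤ 2 * (K : ℝ) / L ^ (A + 2) := by
      have c1 : 2 * (K : ℝ) * L ^ 4 / z ≤ (K : ℝ) / L ^ (A + 2) := by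
        rw [div_le_div_iff₀ hz0 (by positivity)]
        have : 2 * L ^ 4 * L ^ (A + 2) ≤ z := by
          refine le_trans ?_ hzA
          rw [show A + 10 = 4 + (4 + (A + 2)) by ring, pow_add L 4, pow_add L 4]
          have e4 : 2 ≤ L ^ 4 := by
            calc (2 : ℝ) ≤ 2304 := by norm_num
              _ ≤ L := hL
              _ ≤ L ^ 4 := le_self_pow₀ (by linarith) (by norm_num)
          have e5 : 0 ≤ L ^ 4 * L ^ (A + 2) := by positivity
          nlinarith
        nlinarith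
      have c3 : 2 * (K : ℝ) / L ^ (A + 2) = (K : ℝ) / L ^ (A + 2) + (K : ℝ) / L ^ (A + 2) := by ring
      rw [hu, c3]
      linarith
    have hu0 : 0 ≤ u := by positivity
    have b3 : u ^ 2 * (1 + L) ≤ W := by
      calc u ^ 2 * (1 + L) ≤ (2 * (K : ℝ) / L ^ (A + 2)) ^ 2 * (2 * L) := by
            apply mul_le_mul (pow_le_pow_left₀ hu0 hu3 2) (by linarith) (by linarith) (by positivity)
        _ = W * (8 / L ^ (A + 2)) := by
            rw [hW]
            rw [show A + 2 = (A + 1) + 1 by ring, pow_succ L (A + 1)]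
            field_simp
            ring
        _ ≤ W * 1 := by
            apply mul_le_mul_of_nonneg_left _ hW0.le
            rw [div_le_one (by positivity)]
            calc (8 : ℝ) ≤ L := by linarith
              _ ≤ L ^ (A + 2) := le_self_pow₀ (by linarith) (by omega)
        _ = W := mul_one _
    have b4 : ((Q : ℝ) * v) ^ 2 ≤ W := by
      have d1 : (Q : ℝ) * v ≤ K * Real.exp (-l ^ 2) := by
        calc (Q : ℝ) * v ≤ K * x0 * v := mul_le_mul_of_nonneg_right hQX (by linarith)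
          _ = K * (x0 * v) := by ring
          _ = _ := by rw [hXv]
      have d2 : Real.exp (-l ^ 2) ≤ 1 := Real.exp_le_one_iff.2 (by nlinarith [sq_nonneg l])
      have d3 : Real.exp (-l ^ 2) ≤ 1 / L ^ (A + 1) := by
        refine hA8.trans ?_
        apply one_div_le_one_div_of_le hA1
        exact pow_le_pow_right₀ (by linarith) (by omega)
      calc ((Q : ℝ) * v) ^ 2 ≤ (K * Real.exp (-l ^ 2)) ^ 2 := pow_le_pow_left₀ (by positivity) d1 2
        _ = K ^ 2 * (Real.exp (-l ^ 2) * Real.exp (-l ^ 2)) := by ring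
        _ ≤ K ^ 2 * (1 / L ^ (A + 1) * 1) := by
            apply mul_le_mul_of_nonneg_left _ (by positivity)
            exact mul_le_mul d3 d2 (Real.exp_pos _).le (by positivity)
        _ = W := by rw [hW]; ring
    calc 576 * ((Q : ℝ) * (64 * K * L ^ 6) + W + u ^ 2 * (1 + L) + (Q * v) ^ 2) ≤ 576 * (W + W + W + W) := by linarith
      _ = 2304 * W := by ring
      _ ≤ L * W := mul_le_mul_of_nonneg_right hL hW0.le
      _ = (K : ℝ) ^ 2 / L ^ A := by
          rw [hW, pow_succ L A]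
          field_simp
  -- Markov
  have hsub : (Icc 1 X).filter (fun n : ℕ => ¬ Good15 A (B2 + 1) X K 1 n) ⊆
      (Icc 1 X).filter (fun n => (K : ℝ) ^ 2 / L ^ (A + 1) < G (1, n)) := by
    intro n hn
    rw [mem_filter] at hn ⊢
    refine ⟨hn.1, ?_⟩
    by_contra h
    exact hn.2 (hgood (1, n) (mem_product.2 ⟨by simp, hn.1⟩) (not_lt.1 h))
  have hmk : (((Icc 1 X).filter (fun n => (K : ℝ) ^ 2 / L ^ (A + 1) < G (1, n))).card : ℝ) * ((K : ℝ) ^ 2 / L ^ (A + 1)) ≤
      (X : ℝ) * (K : ℝ) ^ 2 / L ^ (2 * A + 1) := by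
    rw [sum_product, Icc_self, sum_singleton] at hGG'
    refine le_trans ?_ hGG'
    rw [← nsmul_eq_mul, ← sum_const]
    calc _ ≤ ∑ n ∈ (Icc 1 X).filter (fun n => (K : ℝ) ^ 2 / L ^ (A + 1) < G (1, n)), G (1, n) :=
          sum_le_sum fun w hw => (mem_filter.1 hw).2.le
      _ ≤ _ := sum_le_sum_of_subset_of_nonneg (filter_subset _ _) (fun w _ _ => hG0 _)
  have hcard : (((Icc 1 X).filter (fun n : ℕ => ¬ Good15 A (B2 + 1) X K 1 n)).card : ℝ) ≤
      (((Icc 1 X).filter (fun n => (K : ℝ) ^ 2 / L ^ (A + 1) < G (1, n))).card : ℝ) := by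
    exact_mod_cast card_le_card hsub
  have hfin : (((Icc 1 X).filter (fun n => (K : ℝ) ^ 2 / L ^ (A + 1) < G (1, n))).card : ℝ) ≤ (X : ℝ) / L ^ A := by
    have hpos : 0 < (K : ℝ) ^ 2 / L ^ (A + 1) := by positivity
    rw [← mul_le_mul_iff_left₀ hpos]
    refine hmk.trans (le_of_eq ?_)
    rw [show 2 * A + 1 = A + (A + 1) by ring, pow_add]
    field_simp
  convert hcard.trans hfin using 3

end Pool.Agent.Helper481.Fix.R
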