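import Pool.Agent.Helper481.Fix

set_option autoImplicit false

/-!
# Goldbach representations with one prime in `(1, 1 + K]`: the sums over the classes
-/

namespace Pool.Agent.Helper481.Fix.B

open Finset
open Pool.Agent.helper24_UT Pool.Agent.Helper481.Fix
open Pool.Agent.H373R2.T7 (lamI lamzI lamz Vz pz lamP)
open Pool.Agent.H807R2.Dav (ee)

lemma lz_neg (z : ℕ) (m : ℤ) : lz z (-m) = lz z m := by
  unfold lz
  simp only [dvd_neg]

/-- the terms -/
noncomputable def F (z n m : ℕ) : ℝ := Ed z (m : ℤ) * lamzI z ((n : ℤ) - m)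

lemma class_sum (z n d c y : ℕ) :
    ∑ m ∈ (Icc 1 y).filter (fun m => m % d = c), F z n m =
      Base.SD (fun _ : Fin 1 => -(n : ℤ)) z d c (min y (n - 1)) := by
  unfold Base.SD
  have h3 : (Icc 1 (min y (n - 1))).filter (fun m => m % d = c) =
      ((Icc 1 y).filter (fun m => m % d = c)).filter (fun m => m < n) := by
    ext m
    simp only [mem_filter, mem_Icc]
    omega
  rw [h3, sum_filter (s := (Icc 1 y).filter (fun m => m % d = c))]
  apply sum_congr rfl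
  intro m hm
  rw [mem_filter, mem_Icc] at hm
  unfold F
  split_ifs with h
  · rw [Fin.prod_univ_one, R15.lamzI_eq z ((n : ℤ) - m) (by omega),
      show (m : ℤ) + -(n : ℤ) = -((n : ℤ) - m) by ring, lz_neg]
    congr 1
    unfold Ed
    rw [R15.lamzI_eq z (m : ℤ) (by omega)]
    unfold lamI
    rw [if_pos (by omega), Int.toNat_natCast]
  · have h1 : lamzI z ((n : ℤ) - m) = 0 := by
      unfold lamzI
      rw [if_neg (by omega)]
    rw [h1, mul_zero]

lemma twist (G : ℕ → ℝ) (y d : ℕ) (hd : 1 ≤ d) (b : ℤ) (E : ℝ)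
    (h : ∀ c ∈ range d, |∑ m ∈ (Icc 1 y).filter (fun m => m % d = c), G m| ≤ E) :
    ‖∑ m ∈ Icc 1 y, ((G m : ℝ) : ℂ) * ee (m * ((b : ℝ) / d))‖ ≤ d * E := by
  have hd0 : (0 : ℝ) < d := by exact_mod_cast hd
  have hee : ∀ n c : ℕ, n % d = c → ee (n * ((b : ℝ) / d)) = ee (c * ((b : ℝ) / d)) := by
    intro n c hnc
    have h2 : (n : ℝ) = c + d * ((n / d : ℕ) : ℝ) := by
      have h3 := Nat.mod_add_div n d
      rw [hnc] at h3
      exact_mod_cast h3.symm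
    generalize (n / d : ℕ) = m at h2
    have h3 : (n : ℝ) * ((b : ℝ) / d) = c * ((b : ℝ) / d) + (((m : ℤ) * b : ℤ) : ℝ) := by
      rw [h2]
      push_cast
      field_simp
    rw [h3, Pool.Agent.H807R2.Dav.ee_add_int]
  have hsum : ∑ n ∈ Icc 1 y, ((G n : ℝ) : ℂ) * ee (n * ((b : ℝ) / d)) =
      ∑ c ∈ range d, ee (c * ((b : ℝ) / d)) * ((∑ n ∈ (Icc 1 y).filter (fun n => n % d = c), G n : ℝ) : ℂ) := by
    rw [← sum_fiberwise_of_maps_to (t := range d) (g := fun n => n % d) (fun n _ => mem_range.2 (Nat.mod_lt n hd))]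
    apply sum_congr rfl
    intro c _
    push_cast
    rw [mul_sum]
    apply sum_congr rfl
    intro n hn
    rw [mem_filter] at hn
    rw [hee n c hn.2, mul_comm]
  rw [hsum]
  refine (norm_sum_le _ _).trans ?_
  have h2 : ∀ c ∈ range d, ‖ee (c * ((b : ℝ) / d)) *
      ((∑ n ∈ (Icc 1 y).filter (fun n => n % d = c), G n : ℝ) : ℂ)‖ ≤ E := by
    intro c hc
    rw [norm_mul, Pool.Agent.H807R2.Dav.norm_ee, one_mul, Complex.norm_real, Real.norm_eq_abs]
    exact h c hc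
  refine (sum_le_sum h2).trans ?_
  rw [sum_const, card_range, nsmul_eq_mul]

lemma Cs_eq (G : ℕ → ℝ) (q r t : ℕ) : Sge.Cs G 1 q r t =
    ∑ m ∈ (Icc 1 (1 + t)).filter (fun m => m % q = r), G m - ∑ m ∈ (Icc 1 1).filter (fun m => m % q = r), G m := by
  unfold Sge.Cs
  have h1 : (Icc 1 (1 + t)).filter (fun m => m % q = r) =
      (Ioc 1 (1 + t)).filter (fun m => m % q = r) ∪ (Icc 1 1).filter (fun m => m % q = r) := by
    rw [← filter_union]
    congr 1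
    ext m
    simp only [mem_union, mem_Icc, mem_Ioc]
    omega
  have h2 : Disjoint ((Ioc 1 (1 + t)).filter (fun m => m % q = r)) ((Icc 1 1).filter (fun m => m % q = r)) := by
    rw [disjoint_left]
    intro m hm hm2
    rw [mem_filter, mem_Ioc] at hm
    rw [mem_filter, mem_Icc] at hm2
    omega
  rw [h1, sum_union h2, add_sub_cancel_right]

theorem fixB (A : ℕ) : ∃ D B : ℕ, ∀ E₁ : ℕ, ∃ N₀ : ℕ, ∀ N : ℕ, N₀ ≤ N → ∀ z : ℕ, Real.log N ^ D ≤ z →
    (z : ℝ) ≤ Real.log N ^ E₁ → ∀ n Q : ℕ, (Q : ℝ) * Real.log N ^ B ≤ N → ∀ t : ℕ, 1 + t ≤ N →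
    ∑ q ∈ Icc 1 Q, ∑ r ∈ range q, (Sge.Cs (F z n) 1 q r t) ^ 2 ≤ 4 * ((N : ℝ) ^ 2 / Real.log N ^ A) := by
  obtain ⟨A', B, N1, hB⟩ := Bdh.main A 3
  refine ⟨A', B, fun E₁ => ?_⟩
  obtain ⟨N2, h2⟩ := Base.diff_class Mtc.main 1 (A' + A' + 1) A' E₁
  obtain ⟨N3, h3⟩ := Pool.Agent.H373R2.T7.Vz_inv_small E₁
  obtain ⟨N4, h4⟩ := Pool.Agent.H373R2.T7.ev_L' 3
  refine ⟨max (max N1 N2) (max N3 (max N4 3)), fun N hN z hz1 hz2 n Q hQ t ht => ?_⟩
  have b1 : N1 ≤ N := le_trans (le_trans (le_max_left _ _) (le_max_left _ _)) hN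
  have b2 : N2 ≤ N := le_trans (le_trans (le_max_right _ _) (le_max_left _ _)) hN
  have b3 : N3 ≤ N := le_trans (le_trans (le_max_left _ _) (le_max_right _ _)) hN
  have b4 : N4 ≤ N := le_trans (le_trans (le_trans (le_max_left _ _) (le_max_right _ _)) (le_max_right _ _)) hN
  have hN3 : 3 ≤ N := le_trans (le_trans (le_trans (le_max_right _ _) (le_max_right _ _)) (le_max_right _ _)) hN
  have hL := h4 N b4
  set L := Real.log N with hLd
  have hL0 : 0 < L := by linarith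
  have hN0 : (0 : ℝ) < N := by
    have : 0 < N := by omega
    exact_mod_cast this
  have hz : 1 ≤ z := by
    have h1 : (1 : ℝ) ≤ L ^ A' := one_le_pow₀ (by linarith)
    exact_mod_cast h1.trans hz1
  have hV := h3 N b3 z hz hz2
  have hnorm : ∀ m ∈ Icc 1 N, ‖((F z n m : ℝ) : ℂ)‖ ≤ L ^ 3 := by
    intro m hm
    rw [mem_Icc] at hm
    rw [Complex.norm_real, Real.norm_eq_abs]
    unfold F
    rw [abs_mul]
    have c1 : 0 ≤ lamI (m : ℤ) := Pool.Agent.H373R2.T7.lamI_nonneg _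
    have c2 : 0 ≤ lamzI z (m : ℤ) := Pool.Agent.H373R2.T7.lamzI_nonneg z _
    have c3 : lamI (m : ℤ) ≤ L := by
      unfold lamI
      rw [if_pos (by omega), Int.toNat_natCast]
      refine ArithmeticFunction.vonMangoldt_le_log.trans ?_
      apply Real.log_le_log
      · exact_mod_cast (by omega : 0 < m)
      · exact_mod_cast hm.2
    have c4 : lamzI z (m : ℤ) ≤ L := (Sge.lamzI_le z hz _).trans hV
    have c5 : |Ed z (m : ℤ)| ≤ L := by
      unfold Ed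
      rw [abs_le]
      constructor <;> linarith
    have c6 : |lamzI z ((n : ℤ) - m)| ≤ L := by
      rw [abs_of_nonneg (Pool.Agent.H373R2.T7.lamzI_nonneg z _)]
      exact (Sge.lamzI_le z hz _).trans hV
    calc |Ed z (m : ℤ)| * |lamzI z ((n : ℤ) - m)| ≤ L * L := mul_le_mul c5 c6 (abs_nonneg _) hL0.le
      _ = L ^ 2 := by ring
      _ ≤ L ^ 3 := pow_le_pow_right₀ (by linarith) (by norm_num)
  have htw : ∀ y d : ℕ, y ≤ N → 1 ≤ d → (d : ℝ) ≤ L ^ A' → ∀ b : ℤ,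
      ‖∑ m ∈ Icc 1 y, ((F z n m : ℝ) : ℂ) * ee (m * ((b : ℝ) / d))‖ ≤ (N : ℝ) / L ^ A' := by
    intro y d hy hd hdL b
    have h5 := twist (F z n) y d hd b (3 * (N / L ^ (A' + A' + 1))) (by
      intro c hc
      rw [mem_range] at hc
      rw [class_sum]
      exact h2 N b2 z hz1 hz2 _ _ ((min_le_left _ _).trans hy) d c hd hdL hc)
    refine h5.trans ?_
    calc (d : ℝ) * (3 * (N / L ^ (A' + A' + 1))) ≤ L ^ A' * (3 * (N / L ^ (A' + A' + 1))) :=
          mul_le_mul_of_nonneg_right hdL (by positivity)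
      _ = 3 / L * (N / L ^ A') := by rw [pow_succ, pow_add]; field_simp
      _ ≤ 1 * (N / L ^ A') := by
          apply mul_le_mul_of_nonneg_right _ (by positivity)
          rw [div_le_one hL0]
          exact hL
      _ = _ := one_mul _
  have r1 := hB N b1 Q hQ (fun m => ((F z n m : ℝ) : ℂ)) hnorm htw (fun _ _ => 1 + t) (fun _ _ => ht)
  have r2 := hB N b1 Q hQ (fun m => ((F z n m : ℝ) : ℂ)) hnorm htw (fun _ _ => 1) (fun _ _ => by omega)
  have hconv : ∀ s : Finset ℕ, ‖∑ m ∈ s, ((F z n m : ℝ) : ℂ)‖ ^ 2 = (∑ m ∈ s, F z n m) ^ 2 := by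
    intro s
    rw [← Complex.ofReal_sum, Complex.norm_real, Real.norm_eq_abs, sq_abs]
  simp only [hconv] at r1 r2
  calc ∑ q ∈ Icc 1 Q, ∑ r ∈ range q, (Sge.Cs (F z n) 1 q r t) ^ 2 ≤
      ∑ q ∈ Icc 1 Q, ∑ r ∈ range q, (2 * (∑ m ∈ (Icc 1 (1 + t)).filter (fun m => m % q = r), F z n m) ^ 2 +
        2 * (∑ m ∈ (Icc 1 1).filter (fun m => m % q = r), F z n m) ^ 2) := by
        apply sum_le_sum
        intro q _
        apply sum_le_sum
        intro r _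
        rw [Cs_eq]
        nlinarith [sq_nonneg ((∑ m ∈ (Icc 1 (1 + t)).filter (fun m => m % q = r), F z n m) +
          (∑ m ∈ (Icc 1 1).filter (fun m => m % q = r), F z n m))]
    _ = 2 * (∑ q ∈ Icc 1 Q, ∑ r ∈ range q, (∑ m ∈ (Icc 1 (1 + t)).filter (fun m => m % q = r), F z n m) ^ 2) +
        2 * (∑ q ∈ Icc 1 Q, ∑ r ∈ range q, (∑ m ∈ (Icc 1 1).filter (fun m => m % q = r), F z n m) ^ 2) := by
        simp only [sum_add_distrib, mul_sum]
    _ ≤ 4 * ((N : ℝ) ^ 2 / L ^ A) := by linarith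

end Pool.Agent.Helper481.Fix.B

namespace Pool.Agent.Helper481.Fix.S

open Finset
open Pool.Agent.helper24_UT Pool.Agent.Helper481.Fix
open Pool.Agent.helper24_UT.Sge
open Pool.Agent.H373R2.T7 (lamI lamzI lamz Vz pz lamP)
open Pool.Agent.H807R2.Dav (ee)

theorem partA1 (C : ℝ) (hC : SupC C) (hC0 : 0 ≤ C) (D : ℕ) (L : ℝ) (hL : 1 ≤ L)
    (X t K Q z : ℕ) (hX : 1 ≤ X) (ht : 1 ≤ t) (htK : t ≤ K) (hKX : K ≤ X) (hKL : Real.log K ≤ L)
    (hb : ∀ m : ℤ, m ≤ 3 * X → lamI m ≤ 2 * L ∧ lamzI z m ≤ 2 * L)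
    (hS : ∀ α : ℝ, ∑ x ∈ Icc (-(((3 * X : ℕ) : ℤ) + t)) ((3 * X : ℕ) : ℤ),
      ‖sw (fun m => Ef X z (-m)) t x α‖ ^ 2 ≤ 5 * X * (t : ℝ) ^ 2 / L ^ (2 * (2 * 2 + 2 + D)))
    (hQ : (Q : ℝ) * L ^ (2 * 2 + D) ≤ K) :
    TS 1 Q (Icc 1 X) (fun x n q r =>
      (Cs (fun m => lamI (m : ℤ) * Ed z ((n : ℤ) - m)) x q r t) ^ 2) ≤
      19 * C * 4 ^ 2 * ((1 : ℕ) * X * (K : ℝ) ^ 2 / L ^ D) := by
  have hb0 : ∀ m : ℤ, 0 ≤ lamI m := Pool.Agent.H373R2.T7.lamI_nonneg
  have hmain := supb C hC hC0 2 D (by norm_num) L hL (fun m => Ef X z (-m))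
    (fun n => if n ≤ 2 * (X : ℤ) then ((lamI n : ℝ) : ℂ) else 0) 0 X 1 t K Q hX ht htK
    hKL (fun m => Ef_abs X z L hL hb (-m)) (Ef_supp X z) ?_ hS hQ
  · refine le_trans ?_ hmain
    unfold TS
    refine le_trans ?_ (emb (s := Icc 1 1) (fun x => (x : ℤ)) _ (fun _ => sum_nonneg fun _ _ =>
      sum_nonneg fun _ _ => sum_nonneg fun _ _ => by positivity)
      (fun _ _ _ _ h => Nat.cast_injective (R := ℤ) h) ?_)
    · refine sum_le_sum fun x hx => ?_
      rw [mem_Icc] at hx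
      refine le_trans ?_ (emb (s := Icc 1 X) (fun n => -(n : ℤ)) _ (fun _ =>
        sum_nonneg fun _ _ => sum_nonneg fun _ _ => by positivity)
        (fun _ _ _ _ h => Nat.cast_injective (R := ℤ) (neg_injective h)) ?_)
      · refine sum_le_sum fun n hn => sum_le_sum fun q _ => sum_le_sum fun r _ => le_of_eq ?_
        rw [mem_Icc] at hn
        have e : ∑ m ∈ (Ioc (x : ℤ) (x + t)).filter (fun n => n % (q : ℤ) = r),
            (if m ≤ 2 * (X : ℤ) then ((lamI m : ℝ) : ℂ) else 0) * (Ef X z (-(m + -(n : ℤ))) : ℂ) =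
            ((Cs (fun m => lamI (m : ℤ) * Ed z ((n : ℤ) - m)) x q r t : ℝ) : ℂ) := by
          unfold Cs
          push_cast
          refine sum_nbij' (fun x => x.toNat) (fun x => (x : ℤ)) ?_ ?_ ?_ ?_ ?_
          · intro n hn
            rw [mem_filter, mem_Ioc] at hn ⊢
            refine ⟨by omega, ?_⟩
            have h1 : (n.toNat : ℤ) = n := Int.toNat_of_nonneg (by omega)
            have h2 : ((n.toNat % q : ℕ) : ℤ) = r := by
              push_cast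
              rw [h1]
              exact hn.2
            exact_mod_cast h2
          · intro n hn
            rw [mem_filter, mem_Ioc] at hn ⊢
            refine ⟨by omega, ?_⟩
            rw [← hn.2]
            push_cast
            rfl
          · intro n hn
            rw [mem_filter, mem_Ioc] at hn
            exact Int.toNat_of_nonneg (by omega)
          · intro n _
            exact Int.toNat_natCast n
          · intro m hm
            rw [mem_filter, mem_Ioc] at hm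
            have h1 : (m.toNat : ℤ) = m := Int.toNat_of_nonneg (by omega)
            have h3 : m ≤ 2 * (X : ℤ) := by omega
            have h4 : -(m + -(n : ℤ)) = n - m := by ring
            rw [h1, if_pos h3, h4, Ef_eq X z _ (by omega)]
        rw [e, Complex.norm_real, Real.norm_eq_abs, sq_abs]
      · intro n hn
        rw [mem_Icc] at hn ⊢
        omega
    · intro x hx
      rw [mem_Icc] at hx
      rw [mem_Ioc]
      omega
  · intro n
    split_ifs with hn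
    · rw [Complex.norm_real, Real.norm_eq_abs, abs_of_nonneg (hb0 n), pow_one]
      exact (hb n (by omega)).1
    · rw [norm_zero]
      positivity

theorem lev1 (C : ℝ) (hC : SupC C) (hC1 : 1 ≤ C) (D : ℕ) (L : ℝ) (hL : 1 ≤ L)
    (X t K Q z : ℕ) (hX : 1 ≤ X) (ht : 1 ≤ t) (htK : t ≤ K) (hKX : K ≤ X) (hKL : Real.log K ≤ L)
    (hb : ∀ m : ℤ, m ≤ 3 * X → lamI m ≤ 2 * L ∧ lamzI z m ≤ 2 * L)
    (hS : ∀ α : ℝ, ∑ x ∈ Icc (-(((3 * X : ℕ) : ℤ) + t)) ((3 * X : ℕ) : ℤ),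
      ‖sw (fun m => Ef X z (-m)) t x α‖ ^ 2 ≤ 5 * X * (t : ℝ) ^ 2 / L ^ (2 * (2 * 2 + 2 + D)))
    (hQ : (Q : ℝ) * L ^ (2 * 2 + D) ≤ K)
    (hB : ∀ n : ℕ, ∑ q ∈ Icc 1 Q, ∑ r ∈ range q, (Cs (Fix.B.F z n) 1 q r t) ^ 2 ≤ 16 * ((K : ℝ) ^ 2 / L ^ D)) :
    TS 1 Q (Icc 1 X) (fun x n q r =>
      (Cs (fun m => lamI (m : ℤ) * lamI ((n : ℤ) - m) - lamzI z (m : ℤ) * lamzI z ((n : ℤ) - m))
        x q r t) ^ 2) ≤
      640 * C * (X * (K : ℝ) ^ 2 / L ^ D) := by
  have hA := partA1 C hC (by linarith) D L hL X t K Q z hX ht htK hKX hKL hb hS hQ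
  have hB' : TS 1 Q (Icc 1 X) (fun x n q r =>
      (Cs (fun m => Ed z (m : ℤ) * lamzI z ((n : ℤ) - m)) x q r t) ^ 2) ≤ X * (16 * ((K : ℝ) ^ 2 / L ^ D)) := by
    unfold TS
    rw [Icc_self, sum_singleton]
    calc _ ≤ ∑ _n ∈ Icc 1 X, 16 * ((K : ℝ) ^ 2 / L ^ D) := sum_le_sum fun n _ => hB n
      _ = _ := by rw [sum_const, Nat.card_Icc, nsmul_eq_mul, Nat.add_sub_cancel]
  have h1 : TS 1 Q (Icc 1 X) (fun x n q r =>
      (Cs (fun m => lamI (m : ℤ) * lamI ((n : ℤ) - m) - lamzI z (m : ℤ) * lamzI z ((n : ℤ) - m))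
        x q r t) ^ 2) ≤ TS 1 Q (Icc 1 X) (fun x n q r =>
      2 * (Cs (fun m => lamI (m : ℤ) * Ed z ((n : ℤ) - m)) x q r t) ^ 2 +
      2 * (Cs (fun m => Ed z (m : ℤ) * lamzI z ((n : ℤ) - m)) x q r t) ^ 2) := by
    refine TS_mono 1 Q _ _ _ fun x _ _ n _ q r _ _ _ => ?_
    have e : Cs (fun m => lamI (m : ℤ) * lamI ((n : ℤ) - m) - lamzI z (m : ℤ) * lamzI z ((n : ℤ) - m))
        x q r t = Cs (fun m => lamI (m : ℤ) * Ed z ((n : ℤ) - m)) x q r t +
        Cs (fun m => Ed z (m : ℤ) * lamzI z ((n : ℤ) - m)) x q r t := by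
      unfold Cs
      rw [← sum_add_distrib]
      refine sum_congr rfl fun m _ => ?_
      unfold Ed
      ring
    rw [e]
    nlinarith [sq_nonneg (Cs (fun m => lamI (m : ℤ) * Ed z ((n : ℤ) - m)) x q r t -
        Cs (fun m => Ed z (m : ℤ) * lamzI z ((n : ℤ) - m)) x q r t)]
  refine h1.trans ?_
  rw [TS_add, TS_mul, TS_mul]
  set Y : ℝ := (X : ℝ) * (K : ℝ) ^ 2 / L ^ D with hY
  have hY0 : 0 ≤ Y := by positivity
  have e1 : (X : ℝ) * (16 * ((K : ℝ) ^ 2 / L ^ D)) = 16 * Y := by rw [hY]; ring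
  have e2 : 19 * C * 4 ^ 2 * (((1 : ℕ) : ℝ) * X * (K : ℝ) ^ 2 / L ^ D) = 304 * (C * Y) := by rw [hY]; push_cast; ring
  rw [e1] at hB'
  rw [e2] at hA
  have e3 : Y ≤ C * Y := le_mul_of_one_le_left hY0 hC1
  linarith

theorem main1 : ∀ θ : ℝ, 0 ≤ θ → S_MKT θ → S_SUP → S_SG1 θ := by
  intro θ hθ hM hT e A he
  obtain ⟨C, hC1, hC⟩ := hT
  obtain ⟨E₀, hE₀⟩ := mkt θ hM e (A + 2 + 1) (2 * (2 * 2 + 2 + (A + 2 + 1 + A + 1))) he
  obtain ⟨D, B, hFB⟩ := Fix.B.fixB (A + 2 + 1 + A + 1 + 1)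
  refine ⟨max E₀ (D + 1), max (2 * 2 + (A + 2 + 1 + A + 1)) (B + 1), fun E₁ => ?_⟩
  obtain ⟨X₀, hX₀⟩ := hE₀ E₁
  obtain ⟨N₀, hN₀⟩ := hFB (E₁ + 1)
  obtain ⟨N₁, hV⟩ := Pool.Agent.H373R2.T7.Vz_inv_small E₁
  have he0 : (0 : ℝ) < e := by exact_mod_cast he
  have hlog : Filter.Tendsto (fun X : ℕ => Real.log (X : ℝ)) Filter.atTop Filter.atTop :=
    Real.tendsto_log_atTop.comp (tendsto_natCast_atTop_atTop (R := ℝ))
  have ev1 : ∀ᶠ X : ℕ in Filter.atTop,
      max 72 (27 * (640 * C)) ≤ Real.log (X : ℝ) :=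
    hlog.eventually_ge_atTop _
  have ev3 : ∀ᶠ X : ℕ in Filter.atTop,
      (2 : ℝ) ^ D + 2 ^ B + (e : ℝ) ^ (E₁ + 1) + (e : ℝ) ^ (A + 2 + 1 + A + 1 + 1) + e * (N₀ + 1) ≤ Real.log (X : ℝ) :=
    hlog.eventually_ge_atTop _
  have ev2 : ∀ᶠ X : ℕ in Filter.atTop, 2 * (Real.log X) ^ (A + 2 + 1) ≤ (X : ℝ) ^ (1 / e : ℝ) := by
    have h1 := (isLittleO_log_rpow_rpow_atTop ((A + 2 + 1 : ℕ) : ℝ)
      (show (0 : ℝ) < 1 / e by positivity)).bound (show (0 : ℝ) < 1 / 2 by norm_num)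
    have h2 := (tendsto_natCast_atTop_atTop (R := ℝ)).eventually h1
    filter_upwards [h2, ev1] with X hX hX2
    have hl : 0 < Real.log (X : ℝ) := by
      have := (le_max_left (72 : ℝ) _).trans hX2
      linarith
    rw [Real.rpow_natCast, Real.norm_eq_abs, Real.norm_eq_abs, abs_of_nonneg (by positivity),
      abs_of_nonneg (by positivity)] at hX
    linarith
  obtain ⟨X₂, hX₂⟩ := Filter.eventually_atTop.1 (ev1.and (ev2.and ev3))
  refine ⟨max (max X₀ N₁) (max X₂ 3), fun X hX K hK hKX z hz1 hz2 Q hQ y hy => ?_⟩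
  have hXa : X₀ ≤ X := le_trans (le_trans (le_max_left _ _) (le_max_left _ _)) hX
  have hXb : N₁ ≤ X := le_trans (le_trans (le_max_right _ _) (le_max_left _ _)) hX
  have hXc : X₂ ≤ X := le_trans (le_trans (le_max_left _ _) (le_max_right _ _)) hX
  have hX3 : 3 ≤ X := le_trans (le_trans (le_max_right _ _) (le_max_right _ _)) hX
  obtain ⟨hl, hp, hq3⟩ := hX₂ X hXc
  have hL72 : 72 ≤ Real.log (X : ℝ) := (le_max_left _ _).trans hl
  have hLC : 27 * (640 * C) ≤ Real.log (X : ℝ) := (le_max_right _ _).trans hl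
  have hL1' : 1 ≤ Real.log (X : ℝ) := by linarith
  have hz1a : (Real.log X) ^ E₀ ≤ (z : ℝ) := (pow_le_pow_right₀ hL1' (le_max_left _ _)).trans hz1
  have hz1b : (Real.log X) ^ (D + 1) ≤ (z : ℝ) := (pow_le_pow_right₀ hL1' (le_max_right _ _)).trans hz1
  have hmkt := hX₀ X hXa K hK hKX z hz1a hz2
  set L := Real.log (X : ℝ) with hLdef
  have hL1 : 1 ≤ L := by linarith
  have hL0 : 0 < L := by linarith
  have hX0 : (0 : ℝ) < X := by exact_mod_cast (by omega : 0 < X)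
  have hX1 : (1 : ℝ) ≤ X := by
    have : 1 ≤ X := by omega
    exact_mod_cast this
  have hz : 1 ≤ z := by
    have h1 : (1 : ℝ) ≤ L ^ E₀ := one_le_pow₀ hL1
    exact_mod_cast h1.trans hz1a
  have hK1' : (1 : ℝ) ≤ K := (Real.one_le_rpow hX1 (by positivity)).trans hK
  have hVL : (Vz z)⁻¹ ≤ L := hV X hXb z hz hz2
  have hbz1 : ∀ m : ℤ, lamzI z m ≤ L := fun m => (lamzI_le z hz m).trans hVL
  have hbz : ∀ m : ℤ, lamzI z m ≤ 2 * L := fun m => (hbz1 m).trans (by linarith)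
  have hb : ∀ m : ℤ, m ≤ 3 * X → lamI m ≤ 2 * L ∧ lamzI z m ≤ 2 * L := fun m hm =>
    ⟨lamI_le X hX3 m hm, hbz m⟩
  have hKL : Real.log K ≤ L := by
    refine Real.log_le_log (by linarith) ?_
    exact_mod_cast hKX
  have hKJ : 2 * L ^ (A + 2 + 1) ≤ K := by
    refine hp.trans (le_trans ?_ hK)
    refine Real.rpow_le_rpow_of_exponent_le hX1 ?_
    linarith
  have hQa : (Q : ℝ) * L ^ (2 * 2 + (A + 2 + 1 + A + 1)) ≤ K := by
    refine le_trans ?_ hQ
    exact mul_le_mul_of_nonneg_left (pow_le_pow_right₀ hL1 (le_max_left _ _)) (Nat.cast_nonneg _)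
  have hQb : (Q : ℝ) * L ^ (B + 1) ≤ K := by
    refine le_trans ?_ hQ
    exact mul_le_mul_of_nonneg_left (pow_le_pow_right₀ hL1 (le_max_right _ _)) (Nat.cast_nonneg _)
  -- the logarithm of `2 K`
  have hp0 : (0 : ℝ) < (e : ℝ) ^ (E₁ + 1) := by positivity
  have hp1 : (0 : ℝ) < (e : ℝ) ^ (A + 2 + 1 + A + 1 + 1) := by positivity
  have hp2 : (0 : ℝ) < (2 : ℝ) ^ D := by positivity
  have hp3 : (0 : ℝ) < (2 : ℝ) ^ B := by positivity
  have hp4 : (0 : ℝ) ≤ e * (N₀ + 1) := by positivity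
  have hKe : L / e ≤ Real.log K := by
    rw [Real.le_log_iff_exp_le (by linarith)]
    refine le_trans ?_ hK
    have h1 : Real.exp (L / e) = (X : ℝ) ^ (1 / e : ℝ) := by
      rw [Real.rpow_def_of_pos hX0]
      congr 1
      rw [hLdef]
      ring
    rw [h1]
    apply Real.rpow_le_rpow_of_exponent_le hX1
    linarith
  set N : ℕ := 2 * K with hNdef
  have hNr : (N : ℝ) = 2 * K := by rw [hNdef]; push_cast; ring
  have hlN1 : Real.log K ≤ Real.log N := by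
    apply Real.log_le_log (by linarith)
    rw [hNr]
    linarith
  have hlN2 : Real.log N ≤ 2 * L := by
    rw [hNr, Real.log_mul (by norm_num) (by linarith)]
    have : Real.log 2 ≤ 1 := by linarith [Real.log_two_lt_d9]
    linarith
  have hlN3 : L / e ≤ Real.log N := hKe.trans hlN1
  have hlN0 : 0 ≤ Real.log N := le_trans (by positivity) hlN3
  have hN0N : N₀ ≤ N := by
    have h1 : (N₀ : ℝ) + 1 ≤ L / e := by
      rw [le_div_iff₀ he0]
      linarith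
    have h2 : (N₀ : ℝ) ≤ N := by
      have h3 : Real.log N ≤ N := (Real.log_le_self (Nat.cast_nonneg _))
      linarith
    exact_mod_cast h2
  have hpD : ∀ U : ℕ, (2 : ℝ) ^ U ≤ L → Real.log N ^ U ≤ L ^ (U + 1) := by
    intro U hU
    calc Real.log N ^ U ≤ (2 * L) ^ U := pow_le_pow_left₀ hlN0 hlN2 U
      _ = 2 ^ U * L ^ U := mul_pow _ _ _
      _ ≤ L * L ^ U := mul_le_mul_of_nonneg_right hU (by positivity)
      _ = L ^ (U + 1) := by rw [pow_succ]; ring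
  have hzN1 : Real.log N ^ D ≤ z := (hpD D (by linarith)).trans hz1b
  have hzN2 : (z : ℝ) ≤ Real.log N ^ (E₁ + 1) :=
    hz2.trans (R15.powcmp L (Real.log N) e E₁ he0 hL0.le (by linarith) hlN3)
  have hQN : (Q : ℝ) * Real.log N ^ B ≤ N := by
    calc (Q : ℝ) * Real.log N ^ B ≤ Q * L ^ (B + 1) :=
          mul_le_mul_of_nonneg_left (hpD B (by linarith)) (Nat.cast_nonneg _)
      _ ≤ K := hQb
      _ ≤ N := by rw [hNr]; linarith
  have hlow : L ^ (A + 2 + 1 + A + 1) ≤ Real.log N ^ (A + 2 + 1 + A + 1 + 1) :=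
    R15.powcmp L (Real.log N) e (A + 2 + 1 + A + 1) he0 hL0.le (by linarith) hlN3
  have hcard : ((Icc 1 X).card : ℝ) = X := by
    rw [Nat.card_Icc, Nat.add_sub_cancel]
  have hcore := core (Icc 1 X)
    (fun n m => lamI (m : ℤ) * lamI ((n : ℤ) - m))
    (fun n m => lamzI z (m : ℤ) * lamzI z ((n : ℤ) - m)) 2 A
    (640 * C) L 1 K Q hL72 hLC (by positivity)
    (fun n m => mul_nonneg (Pool.Agent.H373R2.T7.lamI_nonneg _) (Pool.Agent.H373R2.T7.lamI_nonneg _))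
    (fun n m => mul_nonneg (Pool.Agent.H373R2.T7.lamzI_nonneg _ _)
      (Pool.Agent.H373R2.T7.lamzI_nonneg _ _)) ?_ hQa hKJ hKL ?_ y hy
  · rw [hcard] at hcore
    refine le_trans (le_of_eq ?_) (hcore.trans (le_of_eq ?_))
    · rfl
    · push_cast
      ring
  · intro n m
    rw [sq]
    exact mul_le_mul (hbz1 _) (hbz1 _) (Pool.Agent.H373R2.T7.lamzI_nonneg _ _) (by linarith)
  · intro t ht1 htK hKt
    have hS := hSr X z t (5 * X * (t : ℝ) ^ 2 / L ^ (2 * (2 * 2 + 2 + (A + 2 + 1 + A + 1))))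
      (by omega) (htK.trans hKX) (fun α => hmkt t htK hKt α)
    have h1 := lev1 C hC hC1 (A + 2 + 1 + A + 1) L hL1 X t K Q z (by omega) ht1 htK hKX
      hKL hb hS hQa ?_
    · refine h1.trans (le_of_eq ?_)
      rw [hcard]
      push_cast
      ring
    · intro n
      refine (hN₀ N hN0N z hzN1 hzN2 n Q hQN t (by omega)).trans ?_
      have hNsq : (N : ℝ) ^ 2 = (2 * (K : ℝ)) ^ 2 := by rw [hNr]
      rw [hNsq]
      calc 4 * ((2 * (K : ℝ)) ^ 2 / Real.log N ^ (A + 2 + 1 + A + 1 + 1)) ≤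
            4 * ((2 * (K : ℝ)) ^ 2 / L ^ (A + 2 + 1 + A + 1)) := by
            apply mul_le_mul_of_nonneg_left _ (by norm_num)
            exact div_le_div_of_nonneg_left (by positivity) (by positivity) hlow
        _ = 16 * ((K : ℝ) ^ 2 / L ^ (A + 2 + 1 + A + 1)) := by ring

/-- Goldbach representations of almost all `n ≤ X` with one prime in `(1, 1 + K]`, `K ≥ X ^ (1 / 3 + ε)` -/
theorem t_G1 : S_G1 (1 / 3) :=
  Fix.R.main2 (1 / 3) (by norm_num) (main1 (1 / 3) (by norm_num) Ch.t_MKT Ch.t_SUP) Ch.t_MTS Ch.t_SRT Slb.main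

end Pool.Agent.Helper481.Fix.S
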