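import Pool.Agent.Helper481.Thin

/-!
# Real estimates for the numbers of primes in the intervals `(x, x + x ^ θ)`
-/

set_option autoImplicit false

namespace Pool.Agent.Helper481.Thin

open Finset

/-- the interval `(x, x + l)`, `n ≤ x < n + 1`: its primes are those of `(n, n + y]`, `|y - l| ≤ 1` -/
lemma interval_eq {x l : ℝ} {n : ℕ} (h1 : (n : ℝ) ≤ x) (h2 : x < n + 1) (hl : 0 < l) :
    ∃ y : ℕ, {p : ℕ | p.Prime ∧ x < p ∧ (p : ℝ) < x + l}.ncard = count 1 0 n y ∧ l - 1 ≤ y ∧ (y : ℝ) ≤ l + 1 ∧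
      (n : ℝ) + y < x + l := by
  have hx0 : 0 ≤ x := (Nat.cast_nonneg n).trans h1
  have hc : n + 1 ≤ ⌈x + l⌉₊ := by
    have : n < ⌈x + l⌉₊ := by
      rw [Nat.lt_ceil]
      linarith
    omega
  have hlt := Nat.ceil_lt_add_one (show 0 ≤ x + l by linarith)
  have hge := Nat.le_ceil (x + l)
  obtain ⟨y, hy⟩ : ∃ y, ⌈x + l⌉₊ = n + y + 1 := ⟨⌈x + l⌉₊ - n - 1, by omega⟩
  have hy' : ((⌈x + l⌉₊ : ℕ) : ℝ) = n + y + 1 := by rw [hy]; push_cast; ring
  rw [hy'] at hlt hge
  refine ⟨y, ?_, by linarith, by linarith, by linarith⟩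
  have h3 : {p : ℕ | p.Prime ∧ x < p ∧ (p : ℝ) < x + l} =
      (((Ioc n (n + y)).filter (fun p => p.Prime ∧ p % 1 = 0) : Finset ℕ) : Set ℕ) := by
    ext p
    simp only [Set.mem_ofPred_eq, coe_filter, mem_Ioc]
    constructor
    · rintro ⟨h4, h5, h6⟩
      refine ⟨⟨?_, ?_⟩, h4, Nat.mod_one _⟩
      · have : (n : ℝ) < p := by linarith
        exact_mod_cast this
      · have h7 : p < ⌈x + l⌉₊ := Nat.lt_ceil.2 h6
        omega
    · rintro ⟨⟨h4, h5⟩, h6, -⟩
      refine ⟨h6, ?_, ?_⟩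
      · have : ((n + 1 : ℕ) : ℝ) ≤ p := by exact_mod_cast h4
        push_cast at this
        linarith
      · have h7 : p < ⌈x + l⌉₊ := by omega
        exact Nat.lt_ceil.1 h7
  rw [h3, Set.ncard_coe_finset]
  rfl

/-- the expected number for the interval `(x, x + l)`, `l ≤ √x` -/
lemma logSum_close {x l : ℝ} {n y : ℕ} (h1 : (n : ℝ) ≤ x) (h2 : x < n + 1) (hx : 1 ≤ Real.log x) (hl : 1 ≤ l)
    (hl2 : l ^ 2 ≤ x) (hy1 : l - 1 ≤ y) (hy2 : (y : ℝ) ≤ l + 1) (hy3 : (n : ℝ) + y < x + l) :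
    |logSum n y - l / Real.log x| ≤ 3 := by
  have hx0 : 0 < x := by
    by_contra hneg
    have hn : (0 : ℝ) ≤ n := Nat.cast_nonneg n
    have : x = 0 := by linarith
    rw [this, Real.log_zero] at hx
    linarith
  have hcard : ((Ioc n (n + y)).card : ℝ) = y := by rw [Nat.card_Ioc]; congr 1; omega
  have hmx : ∀ m ∈ Ioc n (n + y), x < m ∧ (m : ℝ) < x + l := by
    intro m hm
    rw [mem_Ioc] at hm
    have h3 : ((n + 1 : ℕ) : ℝ) ≤ m := by exact_mod_cast hm.1
    have h4 : (m : ℝ) ≤ ((n + y : ℕ) : ℝ) := by exact_mod_cast hm.2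
    push_cast at h3 h4
    exact ⟨by linarith, by linarith⟩
  have hlow : ∀ m ∈ Ioc n (n + y), Real.log x ≤ Real.log (m : ℝ) := fun m hm =>
    Real.log_le_log hx0 (hmx m hm).1.le
  have hup : ∀ m ∈ Ioc n (n + y), Real.log (m : ℝ) ≤ Real.log x + l / x := by
    intro m hm
    have h3 := hmx m hm
    have h4 : Real.log (m : ℝ) ≤ Real.log (x * (1 + l / x)) := by
      apply Real.log_le_log (by linarith)
      have : x * (1 + l / x) = x + l := by field_simp
      rw [this]
      exact h3.2.le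
    rw [Real.log_mul hx0.ne' (by positivity)] at h4
    have h5 := Real.log_le_sub_one_of_pos (show 0 < 1 + l / x by positivity)
    linarith
  have hlog0 : 0 < Real.log x := by linarith
  have hlx : 0 ≤ l / x := by positivity
  have hS1 : logSum n y ≤ y / Real.log x := by
    unfold logSum
    calc ∑ m ∈ Ioc n (n + y), 1 / Real.log (m : ℝ) ≤ ∑ _m ∈ Ioc n (n + y), 1 / Real.log x :=
          sum_le_sum fun m hm => one_div_le_one_div_of_le hlog0 (hlow m hm)
      _ = y / Real.log x := by rw [sum_const, nsmul_eq_mul, hcard, mul_one_div]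
  have hS2 : y / (Real.log x + l / x) ≤ logSum n y := by
    unfold logSum
    calc (y : ℝ) / (Real.log x + l / x) = ∑ _m ∈ Ioc n (n + y), 1 / (Real.log x + l / x) := by
          rw [sum_const, nsmul_eq_mul, hcard, mul_one_div]
      _ ≤ _ := sum_le_sum fun m hm => one_div_le_one_div_of_le (by linarith [hlow m hm]) (hup m hm)
  rw [abs_le]
  constructor
  · -- lower bound
    have h6 : (l - 1) / (Real.log x + l / x) ≤ logSum n y := by
      refine le_trans ?_ hS2
      exact div_le_div_of_nonneg_right hy1 (by linarith)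
    have h7 : l / Real.log x - 3 ≤ (l - 1) / (Real.log x + l / x) := by
      have h8 : l / Real.log x - (l - 1) / (Real.log x + l / x) =
          (l * (l / x) + Real.log x) / (Real.log x * (Real.log x + l / x)) := by
        have : Real.log x + l / x ≠ 0 := by positivity
        field_simp
        ring
      have h9 : l * (l / x) ≤ 1 := by
        rw [← mul_div_assoc, div_le_one hx0]
        nlinarith
      have h10 : (l * (l / x) + Real.log x) / (Real.log x * (Real.log x + l / x)) ≤ 3 := by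
        rw [div_le_iff₀ (by positivity)]
        nlinarith [mul_nonneg hlog0.le hlx]
      linarith
    linarith
  · have h6 : (y : ℝ) / Real.log x ≤ (l + 1) / Real.log x := div_le_div_of_nonneg_right hy2 hlog0.le
    have h7 : (l + 1) / Real.log x = l / Real.log x + 1 / Real.log x := by ring
    have h8 : 1 / Real.log x ≤ 1 := by
      rw [div_le_one hlog0]
      exact hx
    linarith

/-- if all logarithms are close to `l` -/
lemma logSum_near {u y : ℕ} {l ε : ℝ} (hl : 1 ≤ l) (hm : ∀ m ∈ Ioc u (u + y), 1 ≤ Real.log (m : ℝ))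
    (h : ∀ m ∈ Ioc u (u + y), |Real.log (m : ℝ) - l| ≤ ε) : |logSum u y - y / l| ≤ y * ε := by
  have hcard : ((Ioc u (u + y)).card : ℝ) = y := by rw [Nat.card_Ioc]; congr 1; omega
  have h1 : logSum u y - y / l = ∑ m ∈ Ioc u (u + y), (1 / Real.log (m : ℝ) - 1 / l) := by
    rw [sum_sub_distrib, sum_const, nsmul_eq_mul, hcard, mul_one_div]
    rfl
  rw [h1]
  calc |∑ m ∈ Ioc u (u + y), (1 / Real.log (m : ℝ) - 1 / l)| ≤ ∑ m ∈ Ioc u (u + y), |1 / Real.log (m : ℝ) - 1 / l| :=
        abs_sum_le_sum_abs _ _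
    _ ≤ ∑ _m ∈ Ioc u (u + y), ε := by
      apply sum_le_sum
      intro m hmm
      have h2 := hm m hmm
      have h3 := h m hmm
      have h4 : 1 / Real.log (m : ℝ) - 1 / l = -(Real.log (m : ℝ) - l) / (Real.log (m : ℝ) * l) := by
        have : Real.log (m : ℝ) ≠ 0 := by linarith
        have : l ≠ 0 := by linarith
        field_simp
        ring
      rw [h4, abs_div, abs_neg, abs_of_pos (by nlinarith : 0 < Real.log (m : ℝ) * l), div_le_iff₀ (by nlinarith)]
      have h5 : 1 ≤ Real.log (m : ℝ) * l := by nlinarith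
      nlinarith [abs_nonneg (Real.log (m : ℝ) - l)]
    _ = y * ε := by rw [sum_const, nsmul_eq_mul, hcard]

end Pool.Agent.Helper481.Thin
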