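import Pool.Agent.helper24_UT.Ch16
import Pool.Agent.Helper481.Real

set_option autoImplicit false

/-!
# Primes between consecutive odd squares, for almost all `k`, in all subintervals and in all classes to all moduli

Let `A` be fixed and let `N` be large. For all but at most `N / (log N) ^ A` of the integers `k ≤ N` the following holds.
(1) Every subinterval `(a, b]` of the interval from `(2 k - 1) ^ 2` to `(2 k + 1) ^ 2` contains `(b - a) / (2 log (2 k))` primes with an
error of at most `k / (log N) ^ A`. In particular the number of the primes between the two odd squares is `4 k / log (2 k)` with this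
error.
(2) The primes between the two odd squares are equidistributed in the reduced residue classes in mean square over ALL moduli
`q ≤ Q = N exp (- B (log log N) ^ 2)`, i.e. almost up to the length of the interval, with any saving of a power of the logarithm, the
interval being cut off in every class at the most unfavourable place.

Proof. `Pool.Agent.helper24_UT.Ch.t_R28` (primes in all classes in almost all windows of a family of well spaced windows; Mikawa's
method and the large sieve) for the windows of length `8 N` at the odd squares `(2 k - 1) ^ 2`, `N / (log N) ^ C < k ≤ N`.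
-/

namespace Pool.Agent.Helper481.OddSquares

open Finset Pool.Agent.Helper481

/-- the number of the primes `p` with `(2 k - 1) ^ 2 < p < (2 k + 1) ^ 2` -/
def P (k : ℕ) : ℕ := ((Ioo ((2 * k - 1) ^ 2) ((2 * k + 1) ^ 2)).filter Nat.Prime).card

/-- the number of the primes `p` with `a < p ≤ b` -/
def primes (a b : ℕ) : ℕ := ((Ioc a b).filter Nat.Prime).card

/-- the number of the primes `p ≡ r (mod q)` with `n < p ≤ n + y` (for `r < q`) -/
def count (q r n y : ℕ) : ℕ := ((Ioc n (n + y)).filter (fun p => p.Prime ∧ p % q = r)).card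

/-- `∑_{n < m ≤ n + y} 1 / log m` -/
noncomputable def logSum (n y : ℕ) : ℝ := ∑ m ∈ Ioc n (n + y), 1 / Real.log (m : ℝ)

/-- For all `Q ≤ N exp (- B (log log N) ^ 2)` and all choices of the lengths `y q r ≤ 8 k` the sum, over all `q ≤ Q` and all reduced
residues `r` modulo `q`, of the squares of `count q r u y - logSum u y / φ(q)`, `u = (2 k - 1) ^ 2`, `y = y q r`, is at most
`N ^ 2 / (log N) ^ A`. -/
def Classes (A B N k : ℕ) : Prop := ∀ Q : ℕ, (Q : ℝ) ≤ N * Real.exp (-(B * Real.log (Real.log N) ^ 2)) →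
  ∀ y : ℕ → ℕ → ℕ, (∀ q r, y q r ≤ 8 * k) →
    ∑ q ∈ Icc 1 Q, ∑ r ∈ (range q).filter (fun r => r.Coprime q),
      ((count q r ((2 * k - 1) ^ 2) (y q r) : ℝ) - logSum ((2 * k - 1) ^ 2) (y q r) / Nat.totient q) ^ 2 ≤
        (N : ℝ) ^ 2 / (Real.log N) ^ A

/-- the three assertions for one `k` -/
def Holds (A B N k : ℕ) : Prop :=
  |(P k : ℝ) - 4 * k / Real.log (2 * k)| ≤ k / (Real.log N) ^ A ∧
  (∀ a b : ℕ, (2 * k - 1) ^ 2 ≤ a → a ≤ b → b ≤ (2 * k + 1) ^ 2 →
    |(primes a b : ℝ) - ((b : ℝ) - a) / (2 * Real.log (2 * k))| ≤ k / (Real.log N) ^ A) ∧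
  Classes A B N k

lemma P_eq {k : ℕ} : P k = primes ((2 * k - 1) ^ 2) ((2 * k + 1) ^ 2) := by
  unfold P primes
  congr 1
  ext p
  simp only [mem_filter, mem_Ioo, mem_Ioc]
  constructor
  · rintro ⟨⟨h1, h2⟩, h3⟩
    exact ⟨⟨h1, h2.le⟩, h3⟩
  · rintro ⟨⟨h1, h2⟩, h3⟩
    refine ⟨⟨h1, lt_of_le_of_ne h2 ?_⟩, h3⟩
    rintro rfl
    exact Nat.Prime.not_prime_pow (le_refl 2) h3

lemma sq_add {k : ℕ} (hk : 1 ≤ k) : (2 * k - 1) ^ 2 + 8 * k = (2 * k + 1) ^ 2 := by
  obtain ⟨m, rfl⟩ := Nat.exists_eq_add_of_le hk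
  have : 2 * (1 + m) - 1 = 2 * m + 1 := by omega
  rw [this]
  ring

/-- the primes of `(a, b]` by initial segments of the window -/
lemma primes_eq {u a b : ℕ} (h1 : u ≤ a) (h2 : a ≤ b) :
    (primes a b : ℝ) = Thin.count 1 0 u (b - u) - Thin.count 1 0 u (a - u) := by
  unfold primes Thin.count
  rw [show u + (b - u) = b by omega, show u + (a - u) = a by omega]
  have h3 : (Ioc u b).filter (fun p => p.Prime ∧ p % 1 = 0) =
      (Ioc u a).filter (fun p => p.Prime ∧ p % 1 = 0) ∪ (Ioc a b).filter Nat.Prime := by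
    ext p
    simp only [mem_union, mem_filter, mem_Ioc]
    constructor
    · rintro ⟨⟨h4, h5⟩, h6, h7⟩
      rcases Nat.lt_or_ge a p with h8 | h8
      · exact Or.inr ⟨⟨h8, h5⟩, h6⟩
      · exact Or.inl ⟨⟨h4, h8⟩, h6, h7⟩
    · rintro (⟨⟨h4, h5⟩, h6, h7⟩ | ⟨⟨h4, h5⟩, h6⟩)
      · exact ⟨⟨h4, by omega⟩, h6, h7⟩
      · exact ⟨⟨by omega, h5⟩, h6, Nat.mod_one _⟩
  have h4 : Disjoint ((Ioc u a).filter (fun p => p.Prime ∧ p % 1 = 0)) ((Ioc a b).filter Nat.Prime) := by
    rw [disjoint_left]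
    intro p hp hp'
    rw [mem_filter, mem_Ioc] at hp hp'
    omega
  rw [h3, card_union_of_disjoint h4]
  push_cast
  ring

/-- the expected number in an initial segment -/
lemma logSum_sq {k y : ℕ} (hk : 2 ≤ k) (hy : y ≤ 8 * k) :
    |Thin.logSum ((2 * k - 1) ^ 2) y - y / (2 * Real.log (2 * k))| ≤ 16 := by
  have hk0 : (2 : ℝ) ≤ k := by exact_mod_cast hk
  have hlog3 : 1 < Real.log 3 := by
    rw [Real.lt_log_iff_exp_lt (by norm_num)]
    linarith [Real.exp_one_lt_d9]
  have hsub : ((2 * k - 1 : ℕ) : ℝ) = 2 * k - 1 := by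
    rw [Nat.cast_sub (by omega)]
    push_cast
    ring
  have hl : 1 ≤ 2 * Real.log (2 * k) := by
    have : Real.log 3 ≤ Real.log (2 * k) := Real.log_le_log (by norm_num) (by linarith)
    linarith
  have hm : ∀ m : ℕ, m ∈ Ioc ((2 * k - 1) ^ 2) ((2 * k - 1) ^ 2 + y) →
      (2 * (k : ℝ) - 1) ^ 2 ≤ (m : ℝ) ∧ (m : ℝ) ≤ (2 * k + 1) ^ 2 := by
    intro m hm
    rw [mem_Ioc] at hm
    have h1 : (((2 * k - 1) ^ 2 : ℕ) : ℝ) ≤ m := by exact_mod_cast hm.1.le
    have h2 : (m : ℝ) ≤ (((2 * k + 1) ^ 2 : ℕ) : ℝ) := by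
      have h3 : m ≤ (2 * k + 1) ^ 2 := by
        have := sq_add (show 1 ≤ k by omega)
        omega
      exact_mod_cast h3
    rw [Nat.cast_pow, hsub] at h1
    rw [Nat.cast_pow] at h2
    push_cast at h2
    exact ⟨h1, h2⟩
  have h3 := Thin.logSum_near (u := (2 * k - 1) ^ 2) (y := y) (l := 2 * Real.log (2 * k)) (ε := 2 / k) hl ?_ ?_
  · refine h3.trans ?_
    have h4 : (y : ℝ) ≤ 8 * k := by exact_mod_cast hy
    rw [mul_div_assoc', div_le_iff₀ (by linarith)]
    linarith
  · intro m hmm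
    have h4 := (hm m hmm).1
    have h5 : (3 : ℝ) ≤ m := by nlinarith
    have : Real.log 3 ≤ Real.log (m : ℝ) := Real.log_le_log (by norm_num) h5
    linarith
  · intro m hmm
    obtain ⟨h4, h5⟩ := hm m hmm
    have h6 : 0 < 2 * (k : ℝ) - 1 := by linarith
    have h7 : Real.log (m : ℝ) ≤ 2 * Real.log (2 * k + 1) := by
      calc Real.log (m : ℝ) ≤ Real.log ((2 * (k : ℝ) + 1) ^ 2) := Real.log_le_log (by nlinarith) h5
        _ = _ := by rw [Real.log_pow]; norm_num
    have h8 : 2 * Real.log (2 * k - 1) ≤ Real.log (m : ℝ) := by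
      calc 2 * Real.log (2 * (k : ℝ) - 1) = Real.log ((2 * (k : ℝ) - 1) ^ 2) := by rw [Real.log_pow]; norm_num
        _ ≤ _ := Real.log_le_log (by positivity) h4
    have h9 : Real.log (2 * (k : ℝ) + 1) ≤ Real.log (2 * k) + 1 / (2 * k) := by
      have h10 : Real.log (2 * (k : ℝ) + 1) = Real.log (2 * k) + Real.log (1 + 1 / (2 * k)) := by
        rw [← Real.log_mul (by positivity) (by positivity)]
        congr 1
        field_simp
      have h11 := Real.log_le_sub_one_of_pos (show 0 < 1 + 1 / (2 * (k : ℝ)) by positivity)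
      linarith
    have h12 : Real.log (2 * (k : ℝ)) ≤ Real.log (2 * k - 1) + 1 / (2 * k - 1) := by
      have h10 : Real.log (2 * (k : ℝ)) = Real.log (2 * k - 1) + Real.log (1 + 1 / (2 * k - 1)) := by
        rw [← Real.log_mul (by positivity) (by positivity)]
        congr 1
        field_simp
        ring
      have h11 := Real.log_le_sub_one_of_pos (show 0 < 1 + 1 / (2 * (k : ℝ) - 1) by positivity)
      linarith
    have h13 : 1 / (2 * (k : ℝ)) ≤ 1 / k := one_div_le_one_div_of_le (by linarith) (by linarith)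
    have h14 : 1 / (2 * (k : ℝ) - 1) ≤ 1 / k := one_div_le_one_div_of_le (by linarith) (by linarith)
    have h15 : 2 / (k : ℝ) = 1 / k + 1 / k := by ring
    rw [abs_le, h15]
    constructor <;> linarith

/-- few windows at odd squares in one window -/
lemma gap (n₀ s s' : ℕ) (h : n₀ + 1 ≤ s) (h' : s ≤ s') :
    (2 * s - 1) ^ 2 + 2 * (n₀ + 1) * (s' - s) ≤ (2 * s' - 1) ^ 2 := by
  obtain ⟨d, rfl⟩ := Nat.exists_eq_add_of_le h'
  obtain ⟨t, rfl⟩ := Nat.exists_eq_add_of_le h
  rw [Nat.add_sub_cancel_left]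
  have h1 : 2 * (n₀ + 1 + t) - 1 = 2 * n₀ + 1 + 2 * t := by omega
  have h2 : 2 * (n₀ + 1 + t + d) - 1 = 2 * n₀ + 1 + 2 * t + 2 * d := by omega
  rw [h1, h2]
  nlinarith [Nat.zero_le (t * d), Nat.zero_le (d * d), Nat.zero_le (n₀ * d), Nat.zero_le d]

/-- the conditions for `N` -/
lemma large (A B : ℕ) : ∃ N₀ : ℕ, ∀ N : ℕ, N₀ ≤ N →
    64 ≤ Real.log N ∧ (Real.log N) ^ A ≤ N ∧ 1 ≤ 8 * N * Real.exp (-(B * Real.log (Real.log (4 * N ^ 2)) ^ 2)) := by
  have hlog : Filter.Tendsto (fun N : ℕ => Real.log (N : ℝ)) Filter.atTop Filter.atTop :=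
    Real.tendsto_log_atTop.comp tendsto_natCast_atTop_atTop
  have hcast := tendsto_natCast_atTop_atTop (R := ℝ)
  have e1 : ∀ᶠ N : ℕ in Filter.atTop, 64 ≤ Real.log N := hlog.eventually_ge_atTop _
  have e2 : ∀ᶠ x : ℝ in Filter.atTop, ‖Real.log x ^ A‖ ≤ 1 * ‖x‖ :=
    (Real.isLittleO_pow_log_id_atTop (n := A)).bound (by positivity)
  have e4 : ∀ᶠ x : ℝ in Filter.atTop, ‖Real.log x ^ 2‖ ≤ 1 / (4 * (B + 1) : ℝ) * ‖x‖ :=
    (Real.isLittleO_pow_log_id_atTop (n := 2)).bound (by positivity)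
  have e2' := hcast.eventually e2
  have e4' := hlog.eventually e4
  obtain ⟨N₁, hN₁⟩ := Filter.eventually_atTop.1 (e1.and (e2'.and e4'))
  refine ⟨N₁, fun X hX => ?_⟩
  obtain ⟨h1, h3, h4⟩ := hN₁ X hX
  have hX0 : (0 : ℝ) < X := by
    rcases Nat.eq_zero_or_pos X with h | h
    · subst h
      norm_num at h1
    · exact_mod_cast h
  refine ⟨h1, ?_, ?_⟩
  · rw [Real.norm_eq_abs, Real.norm_eq_abs, abs_of_nonneg (by positivity), abs_of_nonneg (by positivity)] at h3
    linarith
  · rw [Real.norm_eq_abs, Real.norm_eq_abs, abs_of_nonneg (by positivity), abs_of_nonneg (by linarith)] at h4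
    have hB : (0 : ℝ) ≤ B := Nat.cast_nonneg B
    have h5 : 4 * (B + 1) * Real.log (Real.log X) ^ 2 ≤ Real.log X := by
      rw [one_div, inv_mul_eq_div, le_div_iff₀ (by positivity)] at h4
      linarith
    -- `log (4 X²) ≤ (log X)²`
    have e : Real.log (4 * (X : ℝ) ^ 2) = 2 * Real.log 2 + 2 * Real.log X := by
      rw [Real.log_mul (by norm_num) (by positivity), Real.log_pow, show (4 : ℝ) = 2 ^ 2 by norm_num, Real.log_pow]
      push_cast
      ring
    have h6 : Real.log 2 ≤ 1 := by linarith [Real.log_two_lt_d9]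
    have h6' : 0 < Real.log 2 := Real.log_pos (by norm_num)
    have h7 : Real.log (4 * (X : ℝ) ^ 2) ≤ Real.log X ^ 2 := by
      rw [e]
      nlinarith
    have h8 : 1 ≤ Real.log (4 * (X : ℝ) ^ 2) := by
      rw [e]
      linarith
    have h9 : Real.log (Real.log (4 * (X : ℝ) ^ 2)) ≤ 2 * Real.log (Real.log X) := by
      calc Real.log (Real.log (4 * (X : ℝ) ^ 2)) ≤ Real.log (Real.log X ^ 2) := Real.log_le_log (by linarith) h7
        _ = _ := by rw [Real.log_pow]; push_cast; ring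
    have h10 : 0 ≤ Real.log (Real.log (4 * (X : ℝ) ^ 2)) := Real.log_nonneg h8
    have h11 : Real.log (Real.log (4 * (X : ℝ) ^ 2)) ^ 2 ≤ 4 * Real.log (Real.log X) ^ 2 := by
      calc _ ≤ (2 * Real.log (Real.log X)) ^ 2 := pow_le_pow_left₀ h10 h9 2
        _ = _ := by ring
    have h12 : B * Real.log (Real.log (4 * (X : ℝ) ^ 2)) ^ 2 ≤ Real.log X := by nlinarith [sq_nonneg (Real.log (Real.log X))]
    calc (1 : ℝ) = X * Real.exp (-Real.log X) := by rw [Real.exp_neg, Real.exp_log hX0, mul_inv_cancel₀ hX0.ne']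
      _ ≤ X * Real.exp (-(B * Real.log (Real.log (4 * (X : ℝ) ^ 2)) ^ 2)) := by
        apply mul_le_mul_of_nonneg_left _ hX0.le
        apply Real.exp_le_exp.2
        linarith
      _ ≤ _ := by
        apply mul_le_mul_of_nonneg_right _ (Real.exp_pos _).le
        linarith

open Classical in
/-- **Primes between consecutive odd squares for almost all `k`, in all subintervals and all classes to all moduli.** -/
theorem result (A : ℕ) : ∃ B N₀ : ℕ, ∀ N : ℕ, N₀ ≤ N →
    (((Icc 1 N).filter (fun k => ¬ Holds A B N k)).card : ℝ) ≤ N / (Real.log N) ^ A := by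
  obtain ⟨B, X₁, hmain⟩ := Pool.Agent.helper24_UT.Ch.t_R28 12 (4 * A + 8) (A + 2) (by norm_num)
  obtain ⟨N₂, hlarge⟩ := large (2 * A + 8) B
  refine ⟨4 * B, max (max X₁ N₂) 8, fun N hN => ?_⟩
  have hX1 : X₁ ≤ N := (le_max_left _ _).trans ((le_max_left _ _).trans hN)
  obtain ⟨hL64, hLN, hQ1⟩ := hlarge N ((le_max_right _ _).trans ((le_max_left _ _).trans hN))
  have hN8 : 8 ≤ N := (le_max_right _ _).trans hN
  have hN0 : (0 : ℝ) < N := by exact_mod_cast (by omega : 0 < N)
  set L := Real.log N with hLdef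
  have hL0 : 0 < L := by linarith
  have hone : ∀ n : ℕ, 1 ≤ L ^ n := fun n => one_le_pow₀ (by linarith)
  have hpowle : ∀ {a b : ℕ}, a ≤ b → L ^ a ≤ L ^ b := fun h => pow_le_pow_right₀ (by linarith) h
  -- `X = 4 N ^ 2`
  set X : ℕ := 4 * N ^ 2 with hX
  have hXr : (X : ℝ) = 4 * (N : ℝ) ^ 2 := by rw [hX]; push_cast; ring
  set LX := Real.log X with hLX
  have e : LX = 2 * Real.log 2 + 2 * L := by
    rw [hLX, hXr, Real.log_mul (by norm_num) (by positivity), Real.log_pow, show (4 : ℝ) = 2 ^ 2 by norm_num, Real.log_pow]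
    push_cast
    ring
  have hlog2 : Real.log 2 ≤ 1 := by linarith [Real.log_two_lt_d9]
  have hlog2' : 0 < Real.log 2 := Real.log_pos (by norm_num)
  have hLLX : L ≤ LX := by linarith
  have hLX0 : 0 < LX := by linarith
  have hpowX : ∀ n : ℕ, L ^ n ≤ LX ^ n := fun n => pow_le_pow_left₀ hL0.le hLLX n
  set n₀ := ⌊(N : ℝ) / L ^ (A + 1)⌋₊ with hn₀
  have hfl : (n₀ : ℝ) ≤ (N : ℝ) / L ^ (A + 1) := Nat.floor_le (by positivity)
  have hfl2 : (N : ℝ) ≤ ((n₀ : ℝ) + 1) * L ^ (A + 1) := by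
    have := Nat.lt_floor_add_one ((N : ℝ) / L ^ (A + 1))
    rw [div_lt_iff₀ (by positivity)] at this
    exact this.le
  have hn₀2 : 2 * n₀ ≤ N := by
    have : (n₀ : ℝ) * 2 ≤ N := by
      have h1 : (n₀ : ℝ) * L ^ (A + 1) ≤ N := by
        rwa [le_div_iff₀ (by positivity)] at hfl
      have h2 : (2 : ℝ) ≤ L ^ (A + 1) := le_trans (by linarith) (le_self_pow₀ (by linarith) (by omega : A + 1 ≠ 0))
      have h3 : (n₀ : ℝ) * 2 ≤ (n₀ : ℝ) * L ^ (A + 1) := mul_le_mul_of_nonneg_left h2 (Nat.cast_nonneg n₀)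
      linarith
    have : n₀ * 2 ≤ N := by exact_mod_cast this
    omega
  obtain ⟨M, hM⟩ : ∃ M, n₀ + M = N := ⟨N - n₀, by omega⟩
  have hM2 : N ≤ 2 * M := by omega
  have hM2' : (N : ℝ) ≤ 2 * M := by exact_mod_cast hM2
  have hM0 : (0 : ℝ) < M := by linarith
  -- application of the main theorem
  have hexc := hmain X (by rw [hX]; nlinarith) (8 * N) ?_ (by rw [hX]; nlinarith) M (fun j => (2 * (n₀ + j) - 1) ^ 2) ⟨?_, ?_, ?_⟩
  rotate_left
  · have hXone : (1 : ℝ) ≤ X := by
      rw [hXr]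
      have : (1 : ℝ) ≤ N := by exact_mod_cast (by omega : 1 ≤ N)
      nlinarith
    calc (X : ℝ) ^ ((1 / 3 : ℝ) + 1 / ((12 : ℕ) : ℝ)) ≤ (X : ℝ) ^ (1 / 2 : ℝ) :=
          Real.rpow_le_rpow_of_exponent_le hXone (by norm_num)
      _ = 2 * N := by
        rw [← Real.sqrt_eq_rpow, hXr, show 4 * (N : ℝ) ^ 2 = (2 * N) ^ 2 by ring, Real.sqrt_sq (by positivity)]
      _ ≤ ((8 * N : ℕ) : ℝ) := by
        push_cast
        linarith
  · intro j hj
    rw [mem_Icc] at hj
    calc (2 * (n₀ + j) - 1) ^ 2 ≤ (2 * N) ^ 2 := Nat.pow_le_pow_left (by omega) 2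
      _ = X := by rw [hX]; ring
  · intro x
    refine (Pool.Agent.helper24_UT.Opp.few n₀ (8 * N) M (fun s => (2 * s - 1) ^ 2) (gap n₀) x (8 * L ^ (A + 1)) ?_ ?_).trans ?_
    · push_cast
      nlinarith
    · linarith [hone (A + 1)]
    · calc 8 * L ^ (A + 1) ≤ L * L ^ (A + 1) := mul_le_mul_of_nonneg_right (by linarith) (by positivity)
        _ = L ^ (A + 2) := by ring
        _ ≤ LX ^ (A + 2) := hpowX _
  · have h1 : 1 ≤ LX ^ (A + 2) := (hone _).trans (hpowX _)
    calc (X : ℝ) = 4 * N * N := by rw [hXr]; ring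
      _ ≤ 4 * (2 * M) * N := by nlinarith
      _ = M * ((8 * N : ℕ) : ℝ) * 1 := by push_cast; ring
      _ ≤ M * ((8 * N : ℕ) : ℝ) * LX ^ (A + 2) := mul_le_mul_of_nonneg_left h1 (by positivity)
  -- the good `k`
  have hgood : ∀ k : ℕ, n₀ < k → k ≤ N → Pool.Agent.helper24_UT.Good28 (4 * A + 8) B X (8 * N) ((2 * k - 1) ^ 2) →
      Holds A (4 * B) N k := by
    intro k hk1 hk2 hg
    have hkN : (k : ℝ) ≤ N := by exact_mod_cast hk2
    have hkL : (N : ℝ) ≤ k * L ^ (A + 1) := by
      have h1 : ((n₀ + 1 : ℕ) : ℝ) ≤ k := by exact_mod_cast hk1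
      push_cast at h1
      exact hfl2.trans (mul_le_mul_of_nonneg_right h1 (by positivity))
    have hkbig : L ^ (A + 7) ≤ k := by
      have h1 : L ^ (A + 7) * L ^ (A + 1) ≤ k * L ^ (A + 1) := by
        rw [← pow_add]
        calc L ^ (A + 7 + (A + 1)) = L ^ (2 * A + 8) := by ring_nf
          _ ≤ N := hLN
          _ ≤ _ := hkL
      exact le_of_mul_le_mul_right h1 (by positivity)
    have hk64 : (64 : ℝ) ≤ k := by
      have h1 : L ≤ L ^ (A + 7) := le_self_pow₀ (by linarith) (by omega)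
      linarith
    have hk2' : 2 ≤ k := by
      have : (2 : ℝ) ≤ k := by linarith
      exact_mod_cast this
    have hQ1' : (1 : ℝ) ≤ ((8 * N : ℕ) : ℝ) * Real.exp (-(B * Real.log (Real.log X) ^ 2)) := by
      rw [hXr]
      push_cast
      exact hQ1
    -- the error of an initial segment
    have hinit : ∀ y : ℕ, y ≤ 8 * k →
        |(Thin.count 1 0 ((2 * k - 1) ^ 2) y : ℝ) - y / (2 * Real.log (2 * k))| ≤ (1 / 2) * (k / L ^ A) := by
      intro y hy
      have h2 := Thin.good_one hg hQ1' (show y ≤ 8 * N by omega)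
      have h3 : |(Thin.count 1 0 ((2 * k - 1) ^ 2) y : ℝ) - Thin.logSum ((2 * k - 1) ^ 2) y| ≤ (8 * N) / L ^ (2 * A + 4) := by
        apply abs_le_of_sq_le_sq _ (by positivity)
        refine h2.trans ?_
        rw [div_pow, ← pow_mul, show (2 * A + 4) * 2 = 4 * A + 8 by ring]
        push_cast
        exact div_le_div_of_nonneg_left (by positivity) (by positivity) (hpowX _)
      have h4 : (8 * N : ℝ) / L ^ (2 * A + 4) ≤ (1 / 4) * (k / L ^ A) := by
        calc (8 * N : ℝ) / L ^ (2 * A + 4) ≤ (8 * (k * L ^ (A + 1))) / L ^ (2 * A + 4) := by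
              apply div_le_div_of_nonneg_right _ (by positivity)
              linarith
          _ = 8 / L ^ 3 * (k / L ^ A) := by
            rw [show 2 * A + 4 = (A + 1) + A + 3 by ring, pow_add L _ 3, pow_add L (A + 1) A]
            field_simp
          _ ≤ (1 / 4) * (k / L ^ A) := by
            apply mul_le_mul_of_nonneg_right _ (by positivity)
            rw [div_le_iff₀ (by positivity)]
            have : L ≤ L ^ 3 := le_self_pow₀ (by linarith) (by norm_num)
            linarith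
      have h5 : (16 : ℝ) ≤ (1 / 4) * (k / L ^ A) := by
        have h6 : 64 ≤ k / L ^ A := by
          rw [le_div_iff₀ (by positivity)]
          calc 64 * L ^ A ≤ L * L ^ A := mul_le_mul_of_nonneg_right hL64 (by positivity)
            _ = L ^ (A + 1) := by ring
            _ ≤ L ^ (A + 7) := hpowle (by omega)
            _ ≤ k := hkbig
        linarith
      calc |(Thin.count 1 0 ((2 * k - 1) ^ 2) y : ℝ) - y / (2 * Real.log (2 * k))| ≤
            |(Thin.count 1 0 ((2 * k - 1) ^ 2) y : ℝ) - Thin.logSum ((2 * k - 1) ^ 2) y| +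
            |Thin.logSum ((2 * k - 1) ^ 2) y - y / (2 * Real.log (2 * k))| := abs_sub_le _ _ _
        _ ≤ (1 / 4) * (k / L ^ A) + (1 / 4) * (k / L ^ A) := add_le_add (h3.trans h4) ((logSum_sq hk2' hy).trans h5)
        _ = _ := by ring
    have hsubint : ∀ a b : ℕ, (2 * k - 1) ^ 2 ≤ a → a ≤ b → b ≤ (2 * k + 1) ^ 2 →
        |(primes a b : ℝ) - ((b : ℝ) - a) / (2 * Real.log (2 * k))| ≤ k / L ^ A := by
      intro a b hab1 hab2 hab3
      have hsq := sq_add (show 1 ≤ k by omega)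
      rw [primes_eq hab1 hab2]
      have h1 := hinit (b - (2 * k - 1) ^ 2) (by omega)
      have h2 := hinit (a - (2 * k - 1) ^ 2) (by omega)
      have hb : ((b - (2 * k - 1) ^ 2 : ℕ) : ℝ) = b - (((2 * k - 1) ^ 2 : ℕ) : ℝ) := by
        rw [Nat.cast_sub (by omega)]
      have ha : ((a - (2 * k - 1) ^ 2 : ℕ) : ℝ) = a - (((2 * k - 1) ^ 2 : ℕ) : ℝ) := by
        rw [Nat.cast_sub (by omega)]
      rw [hb] at h1
      rw [ha] at h2
      rw [abs_le] at h1 h2 ⊢
      have h3 : ((b : ℝ) - a) / (2 * Real.log (2 * k)) =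
          ((b : ℝ) - (((2 * k - 1) ^ 2 : ℕ) : ℝ)) / (2 * Real.log (2 * k)) -
          ((a : ℝ) - (((2 * k - 1) ^ 2 : ℕ) : ℝ)) / (2 * Real.log (2 * k)) := by ring
      rw [h3]
      constructor
      · linarith [h1.1, h2.2]
      · linarith [h1.2, h2.1]
    refine ⟨?_, hsubint, fun Q hQ y hy => ?_⟩
    · have h1 := hsubint ((2 * k - 1) ^ 2) ((2 * k + 1) ^ 2) le_rfl (by rw [← sq_add (show 1 ≤ k by omega)]; omega) le_rfl
      rw [P_eq]
      have h2 : (((2 * k + 1) ^ 2 : ℕ) : ℝ) - (((2 * k - 1) ^ 2 : ℕ) : ℝ) = 8 * k := by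
        rw [← sq_add (show 1 ≤ k by omega)]
        push_cast
        ring
      rw [h2] at h1
      have h3 : 8 * (k : ℝ) / (2 * Real.log (2 * k)) = 4 * k / Real.log (2 * k) := by
        rw [show 8 * (k : ℝ) = 2 * (4 * k) by ring, mul_div_mul_left _ _ (by norm_num : (2 : ℝ) ≠ 0)]
      rw [h3] at h1
      exact h1
    · -- classes
      have h7 : LX ≤ L ^ 2 := by
        rw [e]
        nlinarith
      have h9 : Real.log LX ≤ 2 * Real.log L := by
        calc Real.log LX ≤ Real.log (L ^ 2) := Real.log_le_log hLX0 h7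
          _ = _ := by rw [Real.log_pow]; push_cast; ring
      have h10 : 0 ≤ Real.log LX := Real.log_nonneg (by linarith)
      have h11 : Real.log LX ^ 2 ≤ 4 * Real.log L ^ 2 := by
        calc _ ≤ (2 * Real.log L) ^ 2 := pow_le_pow_left₀ h10 h9 2
          _ = _ := by ring
      have hQ' : (Q : ℝ) ≤ ((8 * N : ℕ) : ℝ) * Real.exp (-(B * Real.log (Real.log X) ^ 2)) := by
        refine hQ.trans ?_
        have hB : (0 : ℝ) ≤ B := Nat.cast_nonneg B
        have h12 : Real.exp (-(((4 * B : ℕ) : ℝ) * Real.log L ^ 2)) ≤ Real.exp (-(B * Real.log LX ^ 2)) := by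
          apply Real.exp_le_exp.2
          push_cast
          nlinarith
        calc (N : ℝ) * Real.exp (-(((4 * B : ℕ) : ℝ) * Real.log L ^ 2)) ≤ N * Real.exp (-(B * Real.log LX ^ 2)) :=
              mul_le_mul_of_nonneg_left h12 hN0.le
          _ ≤ _ := by
            apply mul_le_mul_of_nonneg_right _ (Real.exp_pos _).le
            push_cast
            linarith
      refine (Thin.good_classes hg Q hQ' y (fun q r => (hy q r).trans (by omega))).trans ?_
      push_cast
      calc (8 * (N : ℝ)) ^ 2 / LX ^ (4 * A + 8) ≤ (8 * (N : ℝ)) ^ 2 / (L ^ A * 64) := by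
            apply div_le_div_of_nonneg_left (by positivity) (by positivity)
            calc L ^ A * 64 ≤ L ^ A * L := mul_le_mul_of_nonneg_left hL64 (by positivity)
              _ = L ^ (A + 1) := by ring
              _ ≤ L ^ (4 * A + 8) := hpowle (by omega)
              _ ≤ LX ^ (4 * A + 8) := hpowX _
        _ = (N : ℝ) ^ 2 / L ^ A := by
            field_simp
            ring
  -- collect
  set T := (Icc 1 M).filter (fun j => ¬ Pool.Agent.helper24_UT.Good28 (4 * A + 8) B X (8 * N) ((2 * (n₀ + j) - 1) ^ 2)) with hT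
  have hsub : (Icc 1 N).filter (fun k => ¬ Holds A (4 * B) N k) ⊆ Icc 1 n₀ ∪ T.image (fun j => n₀ + j) := by
    intro k hk
    rw [mem_filter, mem_Icc] at hk
    rw [mem_union]
    rcases Nat.lt_or_ge n₀ k with h | h
    · right
      rw [mem_image]
      refine ⟨k - n₀, ?_, by omega⟩
      rw [hT, mem_filter, mem_Icc]
      refine ⟨⟨by omega, by omega⟩, ?_⟩
      rw [show n₀ + (k - n₀) = k by omega]
      exact fun hg => hk.2 (hgood k h hk.1.2 hg)
    · left
      exact mem_Icc.2 ⟨hk.1.1, h⟩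
  have hc1 : (((Icc 1 N).filter (fun k => ¬ Holds A (4 * B) N k)).card : ℝ) ≤ n₀ + T.card := by
    have h1 := (card_le_card hsub).trans (card_union_le _ _)
    rw [Nat.card_Icc, Nat.add_sub_cancel] at h1
    have h2 : (T.image (fun j => n₀ + j)).card ≤ T.card := card_image_le
    exact_mod_cast h1.trans (Nat.add_le_add_left h2 _)
  have hc2 : (n₀ : ℝ) ≤ (1 / 2) * (N / L ^ A) := by
    refine hfl.trans ?_
    calc (N : ℝ) / L ^ (A + 1) ≤ N / (L ^ A * 2) := by
          apply div_le_div_of_nonneg_left hN0.le (by positivity)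
          rw [pow_succ]
          exact mul_le_mul_of_nonneg_left (by linarith) (by positivity)
      _ = _ := by ring
  have hc3 : (T.card : ℝ) ≤ (1 / 2) * (N / L ^ A) := by
    refine hexc.trans ?_
    calc (M : ℝ) / LX ^ (4 * A + 8) ≤ N / (L ^ A * 2) := by
          apply div_le_div₀ hN0.le (by exact_mod_cast (by omega : M ≤ N)) (by positivity)
          calc L ^ A * 2 ≤ L ^ A * L := mul_le_mul_of_nonneg_left (by linarith) (by positivity)
            _ = L ^ (A + 1) := by ring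
            _ ≤ L ^ (4 * A + 8) := hpowle (by omega)
            _ ≤ LX ^ (4 * A + 8) := hpowX _
      _ = _ := by ring
  linarith

end Pool.Agent.Helper481.OddSquares
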