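import Pool.Agent.helper24_UT.Ch16
import Pool.Agent.Helper481.Real

/-!
# The windows `(m ^ 2, m ^ 2 + 8 N]` at the squares `m ^ 2`, `m ≤ N`, and the intervals between two squares
-/

set_option autoImplicit false

namespace Pool.Agent.Helper481.Sq

open Finset Pool.Agent.helper24_UT Pool.Agent.Helper481

lemma gap (n₀ s s' : ℕ) (h : n₀ + 1 ≤ s) (h' : s ≤ s') :
    s ^ 2 + 2 * (n₀ + 1) * (s' - s) ≤ s' ^ 2 := by
  obtain ⟨d, rfl⟩ := Nat.exists_eq_add_of_le h'
  obtain ⟨t, rfl⟩ := Nat.exists_eq_add_of_le h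
  rw [Nat.add_sub_cancel_left]
  nlinarith [Nat.zero_le (t * d), Nat.zero_le (d * d)]

open Classical in
/-- almost all windows at squares are good -/
theorem squares (A : ℕ) : ∃ B N₀ : ℕ, ∀ N : ℕ, N₀ ≤ N →
    (((Icc 1 N).filter (fun m => ¬ Good28 (A + 1) B (4 * N ^ 2) (8 * N) (m ^ 2))).card : ℝ) ≤ N / (Real.log N) ^ A := by
  obtain ⟨B, X₁, hmain⟩ := Ch.t_R28 12 (A + 1) (A + 2) (by norm_num)
  have hlog : Filter.Tendsto (fun N : ℕ => Real.log (N : ℝ)) Filter.atTop Filter.atTop :=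
    Real.tendsto_log_atTop.comp tendsto_natCast_atTop_atTop
  obtain ⟨N₂, hlarge⟩ := Filter.eventually_atTop.1 (hlog.eventually_ge_atTop 64)
  refine ⟨B, max (max X₁ N₂) 8, fun N hN => ?_⟩
  have hX1 : X₁ ≤ N := (le_max_left _ _).trans ((le_max_left _ _).trans hN)
  have hL64 : 64 ≤ Real.log N := hlarge N ((le_max_right _ _).trans ((le_max_left _ _).trans hN))
  have hN8 : 8 ≤ N := (le_max_right _ _).trans hN
  have hN0 : (0 : ℝ) < N := by exact_mod_cast (by omega : 0 < N)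
  set L := Real.log N with hLdef
  have hL0 : 0 < L := by linarith
  have hone : ∀ n : ℕ, 1 ≤ L ^ n := fun n => one_le_pow₀ (by linarith)
  set X : ℕ := 4 * N ^ 2 with hX
  have hXr : (X : ℝ) = 4 * (N : ℝ) ^ 2 := by rw [hX]; push_cast; ring
  set LX := Real.log X with hLX
  have e : LX = 2 * Real.log 2 + 2 * L := by
    rw [hLX, hXr, Real.log_mul (by norm_num) (by positivity), Real.log_pow, show (4 : ℝ) = 2 ^ 2 by norm_num, Real.log_pow]
    push_cast
    ring
  have hlog2' : 0 < Real.log 2 := Real.log_pos (by norm_num)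
  have hLLX : L ≤ LX := by linarith
  have hpowX : ∀ n : ℕ, L ^ n ≤ LX ^ n := fun n => pow_le_pow_left₀ hL0.le hLLX n
  set n₀ := ⌊(N : ℝ) / L ^ (A + 1)⌋₊ with hn₀
  have hfl : (n₀ : ℝ) ≤ (N : ℝ) / L ^ (A + 1) := Nat.floor_le (by positivity)
  have hfl2 : (N : ℝ) ≤ ((n₀ : ℝ) + 1) * L ^ (A + 1) := by
    have := Nat.lt_floor_add_one ((N : ℝ) / L ^ (A + 1))
    rw [div_lt_iff₀ (by positivity)] at this
    exact this.le
  have hn₀2 : 2 * n₀ ≤ N := by
    have : (n₀ : ℝ) * 2 ≤ N := by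
      have h1 : (n₀ : ℝ) * L ^ (A + 1) ≤ N := by
        rwa [le_div_iff₀ (by positivity)] at hfl
      have h2 : (2 : ℝ) ≤ L ^ (A + 1) := le_trans (by linarith) (le_self_pow₀ (by linarith) (by omega : A + 1 ≠ 0))
      have h3 : (n₀ : ℝ) * 2 ≤ (n₀ : ℝ) * L ^ (A + 1) := mul_le_mul_of_nonneg_left h2 (Nat.cast_nonneg n₀)
      linarith
    have : n₀ * 2 ≤ N := by exact_mod_cast this
    omega
  obtain ⟨M, hM⟩ : ∃ M, n₀ + M = N := ⟨N - n₀, by omega⟩
  have hM2 : N ≤ 2 * M := by omega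
  have hM2' : (N : ℝ) ≤ 2 * M := by exact_mod_cast hM2
  have hM0 : (0 : ℝ) < M := by linarith
  have hexc := hmain X (by rw [hX]; nlinarith) (8 * N) ?_ (by rw [hX]; nlinarith) M (fun j => (n₀ + j) ^ 2) ⟨?_, ?_, ?_⟩
  rotate_left
  · have hXone : (1 : ℝ) ≤ X := by
      rw [hXr]
      have : (1 : ℝ) ≤ N := by exact_mod_cast (by omega : 1 ≤ N)
      nlinarith
    calc (X : ℝ) ^ ((1 / 3 : ℝ) + 1 / ((12 : ℕ) : ℝ)) ≤ (X : ℝ) ^ (1 / 2 : ℝ) :=
          Real.rpow_le_rpow_of_exponent_le hXone (by norm_num)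
      _ = 2 * N := by
        rw [← Real.sqrt_eq_rpow, hXr, show 4 * (N : ℝ) ^ 2 = (2 * N) ^ 2 by ring, Real.sqrt_sq (by positivity)]
      _ ≤ ((8 * N : ℕ) : ℝ) := by
        push_cast
        linarith
  · intro j hj
    rw [mem_Icc] at hj
    calc (n₀ + j) ^ 2 ≤ (2 * N) ^ 2 := Nat.pow_le_pow_left (by omega) 2
      _ = X := by rw [hX]; ring
  · intro x
    refine (Opp.few n₀ (8 * N) M (fun s => s ^ 2) (gap n₀) x (8 * L ^ (A + 1)) ?_ ?_).trans ?_
    · push_cast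
      nlinarith
    · linarith [hone (A + 1)]
    · calc 8 * L ^ (A + 1) ≤ L * L ^ (A + 1) := mul_le_mul_of_nonneg_right (by linarith) (by positivity)
        _ = L ^ (A + 2) := by ring
        _ ≤ LX ^ (A + 2) := hpowX _
  · have h1 : 1 ≤ LX ^ (A + 2) := (hone _).trans (hpowX _)
    calc (X : ℝ) = 4 * N * N := by rw [hXr]; ring
      _ ≤ 4 * (2 * M) * N := by nlinarith
      _ = M * ((8 * N : ℕ) : ℝ) * 1 := by push_cast; ring
      _ ≤ M * ((8 * N : ℕ) : ℝ) * LX ^ (A + 2) := mul_le_mul_of_nonneg_left h1 (by positivity)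
  set T := (Icc 1 M).filter (fun j => ¬ Good28 (A + 1) B X (8 * N) ((n₀ + j) ^ 2)) with hT
  have hsub : (Icc 1 N).filter (fun m => ¬ Good28 (A + 1) B X (8 * N) (m ^ 2)) ⊆ Icc 1 n₀ ∪ T.image (fun j => n₀ + j) := by
    intro k hk
    rw [mem_filter, mem_Icc] at hk
    rw [mem_union]
    rcases Nat.lt_or_ge n₀ k with h | h
    · right
      rw [mem_image]
      refine ⟨k - n₀, ?_, by omega⟩
      rw [hT, mem_filter, mem_Icc]
      refine ⟨⟨by omega, by omega⟩, ?_⟩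
      rw [show n₀ + (k - n₀) = k by omega]
      exact hk.2
    · left
      exact mem_Icc.2 ⟨hk.1.1, h⟩
  have hc1 : (((Icc 1 N).filter (fun m => ¬ Good28 (A + 1) B X (8 * N) (m ^ 2))).card : ℝ) ≤ n₀ + T.card := by
    have h1 := (card_le_card hsub).trans (card_union_le _ _)
    rw [Nat.card_Icc, Nat.add_sub_cancel] at h1
    have h2 : (T.image (fun j => n₀ + j)).card ≤ T.card := card_image_le
    exact_mod_cast h1.trans (Nat.add_le_add_left h2 _)
  have hc2 : (n₀ : ℝ) ≤ (1 / 2) * (N / L ^ A) := by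
    refine hfl.trans ?_
    calc (N : ℝ) / L ^ (A + 1) ≤ N / (L ^ A * 2) := by
          apply div_le_div_of_nonneg_left hN0.le (by positivity)
          rw [pow_succ]
          exact mul_le_mul_of_nonneg_left (by linarith) (by positivity)
      _ = _ := by ring
  have hc3 : (T.card : ℝ) ≤ (1 / 2) * (N / L ^ A) := by
    refine hexc.trans ?_
    calc (M : ℝ) / LX ^ (A + 1) ≤ N / (L ^ A * 2) := by
          apply div_le_div₀ hN0.le (by exact_mod_cast (by omega : M ≤ N)) (by positivity)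
          calc L ^ A * 2 ≤ L ^ A * L := mul_le_mul_of_nonneg_left (by linarith) (by positivity)
            _ = L ^ (A + 1) := by ring
            _ ≤ LX ^ (A + 1) := hpowX _
      _ = _ := by ring
  linarith

/-- a sum over an interval which begins at a square, cut at the squares -/
lemma sum_cut (f : ℕ → ℝ) {u v : ℕ} (huv : u ≤ v) : ∀ y : ℕ, u ^ 2 + y ≤ v ^ 2 →
    ∑ j ∈ Ioc (u ^ 2) (u ^ 2 + y), f j =
      ∑ m ∈ Ico u v, ∑ j ∈ Ioc (m ^ 2) (m ^ 2 + min (2 * m + 1) (u ^ 2 + y - m ^ 2)), f j := by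
  induction v, huv using Nat.le_induction with
  | base =>
    intro y hy
    have : y = 0 := by omega
    subst this
    simp
  | succ v huv ih =>
    intro y hy
    rw [sum_Ico_succ_top huv]
    rcases Nat.le_total (u ^ 2 + y) (v ^ 2) with h | h
    · rw [← ih y h]
      have h1 : u ^ 2 + y - v ^ 2 = 0 := by omega
      rw [h1, Nat.min_zero, add_zero, Ioc_self, sum_empty, add_zero]
    · have hu : u ^ 2 ≤ v ^ 2 := Nat.pow_le_pow_left huv 2
      have h2 := ih (v ^ 2 - u ^ 2) (by omega)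
      have h3 : u ^ 2 + (v ^ 2 - u ^ 2) = v ^ 2 := by omega
      rw [h3] at h2
      have h4 : Ioc (u ^ 2) (u ^ 2 + y) = Ioc (u ^ 2) (v ^ 2) ∪ Ioc (v ^ 2) (u ^ 2 + y) := by
        rw [Ioc_union_Ioc_eq_Ioc hu h]
      have h5 : Disjoint (Ioc (u ^ 2) (v ^ 2)) (Ioc (v ^ 2) (u ^ 2 + y)) := Ioc_disjoint_Ioc_of_le le_rfl
      rw [h4, sum_union h5, h2]
      congr 1
      · apply sum_congr rfl
        intro m hm
        rw [mem_Ico] at hm
        have h6 : (m + 1) ^ 2 ≤ v ^ 2 := Nat.pow_le_pow_left (by omega) 2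
        have h7 : (m + 1) ^ 2 = m ^ 2 + (2 * m + 1) := by ring
        rw [Nat.min_eq_left (by omega), Nat.min_eq_left (by omega)]
      · have h8 : (v + 1) ^ 2 = v ^ 2 + (2 * v + 1) := by ring
        rw [Nat.min_eq_right (by omega), show v ^ 2 + (u ^ 2 + y - v ^ 2) = u ^ 2 + y by omega]

/-- the difference of the number of primes in a class and its expected value -/
noncomputable def D (q r u y : ℕ) : ℝ := (Thin.count q r u y : ℝ) - Thin.logSum u y / Nat.totient q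

lemma D_eq (q r u y : ℕ) : D q r u y =
    ∑ j ∈ Ioc u (u + y), ((if j.Prime ∧ j % q = r then (1 : ℝ) else 0) - 1 / Real.log (j : ℝ) / Nat.totient q) := by
  unfold D Thin.count Thin.logSum
  rw [sum_sub_distrib, ← sum_div, card_filter]
  push_cast
  rfl

/-- intervals between two squares all of whose windows are good -/
lemma between {A B X K u v : ℕ} (huv : u ≤ v) (hK : 2 * v ≤ K)
    (hg : ∀ m ∈ Ico u v, Good28 A B X K (m ^ 2)) (Q : ℕ)
    (hQ : (Q : ℝ) ≤ K * Real.exp (-(B * Real.log (Real.log X) ^ 2))) (y : ℕ → ℕ → ℕ) (hy : ∀ q r, u ^ 2 + y q r ≤ v ^ 2) :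
    ∑ q ∈ Icc 1 Q, ∑ r ∈ (range q).filter (fun r => r.Coprime q), (D q r (u ^ 2) (y q r)) ^ 2 ≤
      (((v : ℝ) - u) * K) ^ 2 / (Real.log X) ^ A := by
  have huv' : (u : ℝ) ≤ v := by exact_mod_cast huv
  have hcard : ((Ico u v).card : ℝ) = (v : ℝ) - u := by rw [Nat.card_Ico, Nat.cast_sub huv]
  set z : ℕ → ℕ → ℕ → ℕ := fun m q r => min (2 * m + 1) (u ^ 2 + y q r - m ^ 2) with hz
  have h1 : ∀ q r, D q r (u ^ 2) (y q r) = ∑ m ∈ Ico u v, D q r (m ^ 2) (z m q r) := by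
    intro q r
    simp only [D_eq]
    exact sum_cut _ huv _ (hy q r)
  have h2 : ∀ m ∈ Ico u v, ∑ q ∈ Icc 1 Q, ∑ r ∈ (range q).filter (fun r => r.Coprime q), (D q r (m ^ 2) (z m q r)) ^ 2 ≤
      (K : ℝ) ^ 2 / (Real.log X) ^ A := by
    intro m hm
    apply Thin.good_classes (hg m hm) Q hQ (fun q r => z m q r)
    intro q r
    rw [mem_Ico] at hm
    simp only [hz]
    exact (Nat.min_le_left _ _).trans (by omega)
  calc ∑ q ∈ Icc 1 Q, ∑ r ∈ (range q).filter (fun r => r.Coprime q), (D q r (u ^ 2) (y q r)) ^ 2 ≤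
      ∑ q ∈ Icc 1 Q, ∑ r ∈ (range q).filter (fun r => r.Coprime q),
        (((v : ℝ) - u) * ∑ m ∈ Ico u v, (D q r (m ^ 2) (z m q r)) ^ 2) := by
        apply sum_le_sum
        intro q _
        apply sum_le_sum
        intro r _
        rw [h1 q r, ← hcard]
        exact sq_sum_le_card_mul_sum_sq
    _ = ((v : ℝ) - u) * ∑ m ∈ Ico u v, ∑ q ∈ Icc 1 Q, ∑ r ∈ (range q).filter (fun r => r.Coprime q),
        (D q r (m ^ 2) (z m q r)) ^ 2 := by
        rw [sum_comm' (s := Ico u v) (t := fun _ => Icc 1 Q) (t' := Icc 1 Q) (s' := fun _ => Ico u v) (by simp [and_comm])]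
        simp only [← mul_sum]
        congr 1
        apply sum_congr rfl
        intro q _
        rw [sum_comm]
    _ ≤ ((v : ℝ) - u) * ∑ _m ∈ Ico u v, (K : ℝ) ^ 2 / (Real.log X) ^ A := by
        apply mul_le_mul_of_nonneg_left (sum_le_sum h2) (by linarith)
    _ = _ := by
        rw [sum_const, nsmul_eq_mul, hcard]
        ring

end Pool.Agent.Helper481.Sq
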