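import Pool.Agent.helper24_UT.Stm22

/-!
# Windows at the points of a finite set (finset form of `S_R28` of project UT, helper24); real estimates
-/

set_option autoImplicit false

namespace Pool.Agent.Helper481.Thin

open Finset Pool.Agent.helper24_UT

/-- an enumeration of a finite set by `1, ..., card` -/
noncomputable def enum (S : Finset ℕ) (j : ℕ) : ℕ :=
  if h : j - 1 < S.card then (S.equivFin.symm ⟨j - 1, h⟩ : ℕ) else 0

lemma enum_mem {S : Finset ℕ} {j : ℕ} (hj : j ∈ Icc 1 S.card) : enum S j ∈ S := by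
  rw [mem_Icc] at hj
  have h : j - 1 < S.card := by omega
  unfold enum
  rw [dif_pos h]
  exact (S.equivFin.symm ⟨j - 1, h⟩).2

lemma enum_card (S : Finset ℕ) (p : ℕ → Prop) [DecidablePred p] :
    ((Icc 1 S.card).filter (fun j => p (enum S j))).card = (S.filter p).card := by
  apply card_bij (fun j _ => enum S j)
  · intro j hj
    rw [mem_filter] at hj ⊢
    exact ⟨enum_mem hj.1, hj.2⟩
  · intro i hi j hj h
    rw [mem_filter, mem_Icc] at hi hj
    have h1 : i - 1 < S.card := by omega
    have h2 : j - 1 < S.card := by omega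
    unfold enum at h
    rw [dif_pos h1, dif_pos h2] at h
    have h3 := S.equivFin.symm.injective (Subtype.ext h)
    have h4 := Fin.mk.inj_iff.1 h3
    omega
  · intro s hs
    rw [mem_filter] at hs
    refine ⟨(S.equivFin ⟨s, hs.1⟩ : ℕ) + 1, ?_, ?_⟩
    · have h5 := (S.equivFin ⟨s, hs.1⟩).2
      rw [mem_filter, mem_Icc]
      refine ⟨⟨by omega, by omega⟩, ?_⟩
      unfold enum
      rw [dif_pos (by simp)]
      simpa using hs.2
    · have h5 := (S.equivFin ⟨s, hs.1⟩).2
      unfold enum
      rw [dif_pos (by simp)]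
      simp

open Classical in
/-- `S_R28` for the windows at the points of a finite set -/
theorem finset_form {θ : ℝ} (h28 : S_R28 θ) (e A C : ℕ) (he : 1 ≤ e) : ∃ B X₀ : ℕ, ∀ X : ℕ, X₀ ≤ X → ∀ K : ℕ,
    (X : ℝ) ^ (θ + 1 / e : ℝ) ≤ K → K ≤ X → ∀ S : Finset ℕ, (∀ s ∈ S, s ≤ X) →
    (∀ x : ℕ, ((S.filter (fun s => x ≤ s ∧ s < x + K)).card : ℝ) ≤ (Real.log X) ^ C) →
    (X : ℝ) ≤ S.card * K * (Real.log X) ^ C →
    ((S.filter (fun s => ¬ Good28 A B X K s)).card : ℝ) ≤ S.card / (Real.log X) ^ A := by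
  obtain ⟨B, X₀, h⟩ := h28 e A C he
  refine ⟨B, X₀, fun X hX K hK1 hK2 S hS1 hS2 hS3 => ?_⟩
  have h1 := h X hX K hK1 hK2 S.card (enum S) ⟨fun j hj => hS1 _ (enum_mem hj), fun x => ?_, hS3⟩
  · rw [enum_card S (fun s => ¬ Good28 A B X K s)] at h1
    exact h1
  · have := enum_card S (fun s => x ≤ s ∧ s < x + K)
    have h2 := hS2 x
    rw [← this] at h2
    exact h2

/-- increasing enumeration `0, 1, ..., card - 1` -/
noncomputable def inc (S : Finset ℕ) (k : ℕ) : ℕ :=
  if h : k < S.card then S.orderEmbOfFin rfl ⟨k, h⟩ else 0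

lemma inc_mem {S : Finset ℕ} {k : ℕ} (hk : k < S.card) : inc S k ∈ S := by
  unfold inc
  rw [dif_pos hk]
  exact S.orderEmbOfFin_mem rfl _

lemma inc_lt {S : Finset ℕ} {k l : ℕ} (hl : l < S.card) (h : k < l) : inc S k < inc S l := by
  unfold inc
  rw [dif_pos hl, dif_pos (h.trans hl)]
  exact (S.orderEmbOfFin rfl).strictMono (by simpa using h)

lemma inc_surj {S : Finset ℕ} {s : ℕ} (hs : s ∈ S) : ∃ k, k < S.card ∧ inc S k = s := by
  have h1 : s ∈ Set.range (S.orderEmbOfFin rfl) := by
    rw [Finset.range_orderEmbOfFin]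
    exact hs
  obtain ⟨k, hk⟩ := h1
  refine ⟨k, k.2, ?_⟩
  unfold inc
  rw [dif_pos k.2]
  exact hk

open Classical in
/-- `S_R28` for the windows at the points of a set which has in no window more than `(log X) ^ C` times the average number of
elements -/
theorem dense_form {θ : ℝ} (h28 : S_R28 θ) (e A C : ℕ) (he : 1 ≤ e) : ∃ B X₀ : ℕ, ∀ X : ℕ, X₀ ≤ X → ∀ K : ℕ,
    (X : ℝ) ^ (θ + 1 / e : ℝ) ≤ K → (K : ℝ) * (Real.log X) ^ (C + A + 1) ≤ X →
    ∀ (S : Finset ℕ) (R : ℕ), (∀ s ∈ S, s ≤ X) → 1 ≤ R →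
    (∀ x : ℕ, (S.filter (fun s => x ≤ s ∧ s < x + K)).card ≤ R) →
    (X : ℝ) * R ≤ S.card * K * (Real.log X) ^ C →
    ((S.filter (fun s => ¬ Good28 (A + 1) B X K s)).card : ℝ) ≤ S.card / (Real.log X) ^ A := by
  obtain ⟨B, X₀, h⟩ := h28 e (A + 1) (C + 1) he
  have hev : ∀ᶠ N : ℕ in Filter.atTop, (2 : ℝ) ≤ Real.log (N : ℝ) :=
    (Real.tendsto_log_atTop.comp tendsto_natCast_atTop_atTop).eventually_ge_atTop 2
  obtain ⟨N₁, hN₁⟩ := Filter.eventually_atTop.mp hev
  refine ⟨B, max (max X₀ N₁) 1, fun X hX K hK1 hK2 S R hS1 hR hS2 hS3 => ?_⟩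
  have hX0 : X₀ ≤ X := le_trans (le_max_left _ _) (le_trans (le_max_left _ _) hX)
  have hL : 2 ≤ Real.log X := hN₁ X (le_trans (le_max_right _ _) (le_trans (le_max_left _ _) hX))
  have hX1 : (1 : ℝ) ≤ X := by exact_mod_cast (le_trans (le_max_right _ _) hX)
  set L := Real.log X with hLdef
  set M := S.card with hM
  have hL0 : 0 < L := by linarith
  have hR0 : (0 : ℝ) < R := by exact_mod_cast hR
  have hK0 : (0 : ℝ) < K := lt_of_lt_of_le (by positivity) hK1
  have hone : ∀ n : ℕ, 1 ≤ L ^ n := fun n => one_le_pow₀ (by linarith)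
  have hKX : K ≤ X := by
    have h1 : (K : ℝ) ≤ X := by nlinarith [hone (C + A + 1)]
    exact_mod_cast h1
  -- `R L ^ (A + 1) ≤ M`
  have hRM : (R : ℝ) * L ^ (A + 1) ≤ M := by
    have h1 : (R : ℝ) * L ^ (A + 1) * (K * L ^ C) ≤ M * (K * L ^ C) := by
      calc (R : ℝ) * L ^ (A + 1) * (K * L ^ C) = (K * L ^ (C + A + 1)) * R := by ring
        _ ≤ X * R := mul_le_mul_of_nonneg_right hK2 hR0.le
        _ ≤ M * K * L ^ C := hS3
        _ = _ := by ring
    exact le_of_mul_le_mul_right h1 (by positivity)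
  set m := M / R with hm
  have hmR : m * R ≤ M := Nat.div_mul_le_self M R
  have hmR' : M < m * R + R := Nat.lt_div_mul_add hR
  have hm1 : 1 ≤ m := by
    have h1 : (R : ℝ) ≤ M := by nlinarith [hone (A + 1)]
    have h2 : R ≤ M := by exact_mod_cast h1
    exact (Nat.one_le_div_iff hR).2 h2
  -- the classes
  have key : ∀ i < R, (((Icc 1 m).filter (fun j => ¬ Good28 (A + 1) B X K (inc S (i + (j - 1) * R)))).card : ℝ) ≤
      m / L ^ (A + 1) := by
    intro i hi
    apply h X hX0 K hK1 hKX m (fun j => inc S (i + (j - 1) * R))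
    have hidx : ∀ j ∈ Icc 1 m, i + (j - 1) * R < M := by
      intro j hj
      rw [mem_Icc] at hj
      have h1 : (j - 1) * R + R ≤ m * R := by
        calc (j - 1) * R + R = (j - 1 + 1) * R := by ring
          _ ≤ m * R := Nat.mul_le_mul_right R (by omega)
      omega
    refine ⟨fun j hj => hS1 _ (inc_mem (hidx j hj)), fun x => ?_, ?_⟩
    · have h2 : ((Icc 1 m).filter (fun j => x ≤ inc S (i + (j - 1) * R) ∧ inc S (i + (j - 1) * R) < x + K)).card ≤ 1 := by
        rw [card_le_one]
        by_contra hcon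
        push Not at hcon
        obtain ⟨a, ha, b, hb, hab⟩ := hcon
        wlog hlt : a < b generalizing a b
        · exact this b hb a ha hab.symm (by omega)
        rw [mem_filter] at ha hb
        have ha1 := mem_Icc.1 ha.1
        have hb1 := mem_Icc.1 hb.1
        have hgap : (a - 1) * R + R ≤ (b - 1) * R := by
          calc (a - 1) * R + R = (a - 1 + 1) * R := by ring
            _ ≤ (b - 1) * R := Nat.mul_le_mul_right R (by omega)
        have hbM := hidx b hb.1
        have h3 : (Icc (i + (a - 1) * R) (i + (b - 1) * R)).image (inc S) ⊆ S.filter (fun s => x ≤ s ∧ s < x + K) := by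
          intro s hs
          rw [mem_image] at hs
          obtain ⟨k, hk, rfl⟩ := hs
          rw [mem_Icc] at hk
          rw [mem_filter]
          refine ⟨inc_mem (by omega), ?_, ?_⟩
          · rcases Nat.eq_or_lt_of_le hk.1 with h4 | h4
            · rw [← h4]
              exact ha.2.1
            · exact ha.2.1.trans (inc_lt (by omega) h4).le
          · rcases Nat.eq_or_lt_of_le hk.2 with h4 | h4
            · rw [h4]
              exact hb.2.2
            · exact lt_of_le_of_lt (inc_lt hbM h4).le hb.2.2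
        have h5 := (card_le_card h3).trans (hS2 x)
        rw [card_image_of_injOn] at h5
        · rw [Nat.card_Icc] at h5
          omega
        · intro k hk l hl hkl
          rw [mem_coe, mem_Icc] at hk hl
          by_contra hne
          rcases Nat.lt_or_gt_of_ne hne with h6 | h6
          · exact absurd hkl (inc_lt (by omega) h6).ne
          · exact absurd hkl (inc_lt (by omega) h6).ne'
      calc (((Icc 1 m).filter (fun j => x ≤ inc S (i + (j - 1) * R) ∧ inc S (i + (j - 1) * R) < x + K)).card : ℝ) ≤ 1 := by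
            exact_mod_cast h2
        _ ≤ _ := hone _
    · have h6 : (M : ℝ) ≤ 2 * (m * R) := by
        have : M ≤ 2 * (m * R) := by nlinarith
        exact_mod_cast this
      have h7 : (X : ℝ) * R ≤ (m * K * L ^ (C + 1)) * R := by
        calc (X : ℝ) * R ≤ M * K * L ^ C := hS3
          _ ≤ 2 * (m * R) * K * L ^ C := by
            apply mul_le_mul_of_nonneg_right _ (by positivity)
            exact mul_le_mul_of_nonneg_right h6 hK0.le
          _ = (m * K * (L ^ C * 2)) * R := by ring
          _ ≤ (m * K * (L ^ C * L)) * R := by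
            apply mul_le_mul_of_nonneg_right _ hR0.le
            apply mul_le_mul_of_nonneg_left _ (by positivity)
            exact mul_le_mul_of_nonneg_left hL (by positivity)
          _ = _ := by rw [pow_succ]
      exact le_of_mul_le_mul_right h7 hR0
  -- collect
  have hsub : S.filter (fun s => ¬ Good28 (A + 1) B X K s) ⊆
      ((range R).biUnion (fun i => ((Icc 1 m).filter (fun j => ¬ Good28 (A + 1) B X K (inc S (i + (j - 1) * R)))).image
        (fun j => inc S (i + (j - 1) * R)))) ∪ (Ico (m * R) M).image (inc S) := by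
    intro s hs
    rw [mem_filter] at hs
    obtain ⟨k, hk, rfl⟩ := inc_surj hs.1
    rw [mem_union]
    rcases Nat.lt_or_ge k (m * R) with h8 | h8
    · left
      rw [mem_biUnion]
      refine ⟨k % R, mem_range.2 (Nat.mod_lt _ hR), ?_⟩
      rw [mem_image]
      have h9 : k / R < m := (Nat.div_lt_iff_lt_mul hR).2 h8
      have h10 : k % R + (k / R + 1 - 1) * R = k := by
        rw [Nat.add_sub_cancel, mul_comm]
        exact Nat.mod_add_div k R
      refine ⟨k / R + 1, ?_, by rw [h10]⟩
      rw [mem_filter, mem_Icc]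
      refine ⟨⟨Nat.le_add_left 1 _, h9⟩, ?_⟩
      rw [h10]
      exact hs.2
    · right
      rw [mem_image]
      exact ⟨k, mem_Ico.2 ⟨h8, hk⟩, rfl⟩
  have h11 : ((S.filter (fun s => ¬ Good28 (A + 1) B X K s)).card : ℝ) ≤ ∑ i ∈ range R, (m : ℝ) / L ^ (A + 1) + R := by
    have h12 := (card_le_card hsub).trans (card_union_le _ _)
    have h13 : ((S.filter (fun s => ¬ Good28 (A + 1) B X K s)).card : ℝ) ≤
        (((range R).biUnion (fun i => ((Icc 1 m).filter (fun j => ¬ Good28 (A + 1) B X K (inc S (i + (j - 1) * R)))).image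
        (fun j => inc S (i + (j - 1) * R)))).card : ℝ) + (((Ico (m * R) M).image (inc S)).card : ℝ) := by exact_mod_cast h12
    refine h13.trans (add_le_add ?_ ?_)
    · have h14 : (((range R).biUnion (fun i => ((Icc 1 m).filter (fun j => ¬ Good28 (A + 1) B X K (inc S (i + (j - 1) * R)))).image
        (fun j => inc S (i + (j - 1) * R)))).card : ℝ) ≤ ∑ i ∈ range R,
        ((((Icc 1 m).filter (fun j => ¬ Good28 (A + 1) B X K (inc S (i + (j - 1) * R)))).image
        (fun j => inc S (i + (j - 1) * R))).card : ℝ) := by exact_mod_cast card_biUnion_le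
      refine h14.trans (sum_le_sum fun i hi => ?_)
      refine le_trans ?_ (key i (mem_range.1 hi))
      exact_mod_cast card_image_le
    · have h15 : ((Ico (m * R) M).image (inc S)).card ≤ R := by
        refine card_image_le.trans ?_
        rw [Nat.card_Ico]
        omega
      exact_mod_cast h15
  refine h11.trans ?_
  rw [sum_const, card_range, nsmul_eq_mul]
  have h16 : (R : ℝ) * (m / L ^ (A + 1)) ≤ (1 / 2) * (M / L ^ A) := by
    have h17 : (R : ℝ) * m ≤ M := by
      have : R * m ≤ M := by rw [mul_comm]; exact hmR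
      exact_mod_cast this
    calc (R : ℝ) * (m / L ^ (A + 1)) = (R * m) / L ^ (A + 1) := by ring
      _ ≤ M / L ^ (A + 1) := div_le_div_of_nonneg_right h17 (by positivity)
      _ ≤ M / (L ^ A * 2) := by
        apply div_le_div_of_nonneg_left (Nat.cast_nonneg _) (by positivity)
        rw [pow_succ]
        exact mul_le_mul_of_nonneg_left hL (by positivity)
      _ = _ := by ring
  have h18 : (R : ℝ) ≤ (1 / 2) * (M / L ^ A) := by
    have h19 : (R : ℝ) * (L ^ A * 2) ≤ M := by
      refine le_trans ?_ hRM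
      rw [pow_succ]
      apply mul_le_mul_of_nonneg_left _ hR0.le
      exact mul_le_mul_of_nonneg_left hL (by positivity)
    have h20 : (R : ℝ) ≤ M / (L ^ A * 2) := by
      rw [le_div_iff₀ (by positivity)]
      exact h19
    refine h20.trans (le_of_eq ?_)
    ring
  linarith

/-- the number of the primes `p ≡ r (mod q)` with `u < p ≤ u + y` (for `r < q`) -/
def count (q r u y : ℕ) : ℕ := ((Ioc u (u + y)).filter (fun p => p.Prime ∧ p % q = r)).card

/-- `∑_{u < m ≤ u + y} 1 / log m` -/
noncomputable def logSum (u y : ℕ) : ℝ := ∑ m ∈ Ioc u (u + y), 1 / Real.log (m : ℝ)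

lemma count_eq (q r u y : ℕ) : (pcl q r (u + y) : ℝ) - pcl q r u = count q r u y := by
  unfold pcl count
  have h1 : (Icc 1 (u + y)).filter (fun p => p.Prime ∧ p % q = r) =
      (Icc 1 u).filter (fun p => p.Prime ∧ p % q = r) ∪ (Ioc u (u + y)).filter (fun p => p.Prime ∧ p % q = r) := by
    ext p
    simp only [mem_union, mem_filter, mem_Icc, mem_Ioc]
    constructor
    · rintro ⟨⟨h2, h3⟩, h4⟩
      rcases Nat.lt_or_ge u p with h5 | h5
      · exact Or.inr ⟨⟨h5, h3⟩, h4⟩
      · exact Or.inl ⟨⟨h2, h5⟩, h4⟩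
    · rintro (⟨⟨h2, h3⟩, h4⟩ | ⟨⟨h2, h3⟩, h4⟩)
      · exact ⟨⟨h2, by omega⟩, h4⟩
      · exact ⟨⟨by omega, h3⟩, h4⟩
  have h2 : Disjoint ((Icc 1 u).filter (fun p => p.Prime ∧ p % q = r))
      ((Ioc u (u + y)).filter (fun p => p.Prime ∧ p % q = r)) := by
    rw [disjoint_left]
    intro p hp hp'
    rw [mem_filter, mem_Icc] at hp
    rw [mem_filter, mem_Ioc] at hp'
    omega
  rw [h1, card_union_of_disjoint h2]
  push_cast
  ring

/-- `Good28` with `count` and `logSum` -/
lemma good_classes {A B X K u : ℕ} (h : Good28 A B X K u) (Q : ℕ)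
    (hQ : (Q : ℝ) ≤ K * Real.exp (-(B * Real.log (Real.log X) ^ 2))) (y : ℕ → ℕ → ℕ) (hy : ∀ q r, y q r ≤ K) :
    ∑ q ∈ Icc 1 Q, ∑ r ∈ (range q).filter (fun r => r.Coprime q),
      ((count q r u (y q r) : ℝ) - logSum u (y q r) / Nat.totient q) ^ 2 ≤ (K : ℝ) ^ 2 / (Real.log X) ^ A := by
  have h1 := h Q hQ y hy
  simp only [count_eq] at h1
  refine le_trans (le_of_eq ?_) h1
  apply sum_congr rfl
  intro q _
  apply sum_congr rfl
  intro r _
  unfold logSum
  congr 2
  ring

/-- the case `q = 1` -/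
lemma good_one {A B X K u : ℕ} (h : Good28 A B X K u)
    (hQ : (1 : ℝ) ≤ K * Real.exp (-(B * Real.log (Real.log X) ^ 2))) {y : ℕ} (hy : y ≤ K) :
    ((count 1 0 u y : ℝ) - logSum u y) ^ 2 ≤ (K : ℝ) ^ 2 / (Real.log X) ^ A := by
  have h5 := good_classes h 1 (by rw [Nat.cast_one]; exact hQ) (fun _ _ => y) (fun _ _ => hy)
  have hres : (range 1).filter (fun r : ℕ => r.Coprime 1) = {0} := by
    ext r
    rw [mem_filter, mem_range, mem_singleton]
    constructor
    · rintro ⟨h6, _⟩
      omega
    · rintro rfl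
      exact ⟨by omega, Nat.coprime_one_right 0⟩
  rw [Icc_self, sum_singleton, hres, sum_singleton, Nat.totient_one, Nat.cast_one, div_one] at h5
  exact h5

/-- few elements of a set with few elements in all windows are small -/
lemma small_card {S : Finset ℕ} {K : ℕ} (hK : 0 < K) {R : ℝ}
    (hS : ∀ x : ℕ, ((S.filter (fun s => x ≤ s ∧ s < x + K)).card : ℝ) ≤ R) (T : ℕ) :
    ((S.filter (fun s => s ≤ T)).card : ℝ) ≤ ((T : ℝ) / K + 1) * R := by
  have hR : 0 ≤ R := (Nat.cast_nonneg _).trans (hS 0)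
  have h1 : S.filter (fun s => s ≤ T) ⊆
      (range (T / K + 1)).biUnion (fun i => S.filter (fun s => i * K ≤ s ∧ s < i * K + K)) := by
    intro s hs
    rw [mem_filter] at hs
    rw [mem_biUnion]
    refine ⟨s / K, ?_, ?_⟩
    · rw [mem_range]
      have := Nat.div_le_div_right (c := K) hs.2
      omega
    · rw [mem_filter]
      have h2 := Nat.div_mul_le_self s K
      have h3 := Nat.lt_div_mul_add (a := s) hK
      exact ⟨hs.1, h2, h3⟩
  have h2 : ((S.filter (fun s => s ≤ T)).card : ℝ) ≤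
      ∑ i ∈ range (T / K + 1), ((S.filter (fun s => i * K ≤ s ∧ s < i * K + K)).card : ℝ) := by
    have := (card_le_card h1).trans card_biUnion_le
    exact_mod_cast this
  refine h2.trans ((sum_le_sum fun i _ => hS (i * K)).trans ?_)
  rw [sum_const, card_range, nsmul_eq_mul]
  apply mul_le_mul_of_nonneg_right _ hR
  push_cast
  have := Nat.cast_div_le (α := ℝ) (m := T) (n := K)
  linarith

end Pool.Agent.Helper481.Thin
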