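import Pool.Agent.helper24_UT.Ch16
import Pool.Agent.Helper481.Real

set_option autoImplicit false

/-!
# The gap from a square to the next prime versus Euler's totient, for almost all `n`, in all classes to all moduli

Let `A` be fixed and let `N` be large. For all but at most `N / (log N) ^ A` of the integers `n ≤ N` the following holds.
(1) The distance `a(n)` of `n ^ 2` to the next prime is at most `φ(n) / (log N) ^ A` (the question is whether `a(n) ≤ 1 + φ(n)` always).
(2) For all `y ≤ z ≤ n` there are `(z - y) / (2 log n)` primes between `n ^ 2 + y` and `n ^ 2 + z` with an error of at most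
`φ(n) / (log N) ^ A`. In particular the interval `(n ^ 2, n ^ 2 + 1 + φ(n)]` of the question contains asymptotically
`φ(n) / (2 log n)` primes.
(3) The primes of `(n ^ 2, n ^ 2 + n]` are equidistributed in the reduced residue classes in mean square over ALL moduli
`q ≤ Q = N exp (- B (log log N) ^ 2)`, with any saving of a power of the logarithm, the interval being cut off in every class at an
arbitrary place, for instance at `n ^ 2 + 1 + φ(n)`.

Proof. `Pool.Agent.helper24_UT.Ch.t_OPP` (Mikawa's method, large sieve) and the bound `φ(n) ≥ n / (3 log n)`.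
-/

namespace Pool.Agent.Helper481.Totient

open Finset Pool.Agent.Helper481

/-- `q(n)`, the least prime greater than `n ^ 2` -/
noncomputable def q (n : ℕ) : ℕ := sInf {p : ℕ | p.Prime ∧ n ^ 2 < p}

/-- `a(n) = q(n) - n ^ 2` -/
noncomputable def a (n : ℕ) : ℕ := q n - n ^ 2

/-- the number of the primes `p` with `u < p ≤ v` -/
def primes (u v : ℕ) : ℕ := ((Ioc u v).filter Nat.Prime).card

/-- the number of the primes `p ≡ r (mod q)` with `u < p ≤ u + y` (for `r < q`) -/
def count (q r u y : ℕ) : ℕ := ((Ioc u (u + y)).filter (fun p => p.Prime ∧ p % q = r)).card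

/-- `∑_{u < m ≤ u + y} 1 / log m` -/
noncomputable def logSum (u y : ℕ) : ℝ := ∑ m ∈ Ioc u (u + y), 1 / Real.log (m : ℝ)

/-- For all `Q ≤ N exp (- B (log log N) ^ 2)` and all choices of the lengths `y q r ≤ n` the sum, over all `q ≤ Q` and all reduced
residues `r` modulo `q`, of the squares of `count q r (n ^ 2) y - logSum (n ^ 2) y / φ(q)`, `y = y q r`, is at most
`N ^ 2 / (log N) ^ A`. -/
def Classes (A B N n : ℕ) : Prop := ∀ Q : ℕ, (Q : ℝ) ≤ N * Real.exp (-(B * Real.log (Real.log N) ^ 2)) →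
  ∀ y : ℕ → ℕ → ℕ, (∀ q r, y q r ≤ n) →
    ∑ q ∈ Icc 1 Q, ∑ r ∈ (range q).filter (fun r => r.Coprime q),
      ((count q r (n ^ 2) (y q r) : ℝ) - logSum (n ^ 2) (y q r) / Nat.totient q) ^ 2 ≤ (N : ℝ) ^ 2 / (Real.log N) ^ A

/-- the three assertions for one `n` -/
def Holds (A B N n : ℕ) : Prop :=
  (a n : ℝ) ≤ Nat.totient n / (Real.log N) ^ A ∧
  (∀ y z : ℕ, y ≤ z → z ≤ n →
    |(primes (n ^ 2 + y) (n ^ 2 + z) : ℝ) - ((z : ℝ) - y) / (2 * Real.log n)| ≤ Nat.totient n / (Real.log N) ^ A) ∧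
  Classes A B N n

/-- `∏_{s ∈ S} s / (s - 1) ≤ |S| + 1` for integers `s ≥ 2` -/
lemma prod_le (S : Finset ℕ) : (∀ s ∈ S, 2 ≤ s) → ∏ s ∈ S, (1 - 1 / (s : ℝ))⁻¹ ≤ S.card + 1 := by
  induction S using Finset.induction_on_max with
  | empty => intro _; simp
  | insert m S hm ih =>
    intro h2
    have hmS : m ∉ S := fun h => lt_irrefl _ (hm m h)
    rw [prod_insert hmS, card_insert_of_notMem hmS]
    have h3 := ih fun s hs => h2 s (mem_insert_of_mem hs)
    have hm2 : 2 ≤ m := h2 m (mem_insert_self _ _)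
    have h4 : S ⊆ Ico 2 m := fun s hs => mem_Ico.2 ⟨h2 s (mem_insert_of_mem hs), hm s hs⟩
    have h5 := card_le_card h4
    rw [Nat.card_Ico] at h5
    have h6 : (S.card : ℝ) + 2 ≤ m := by
      have : S.card + 2 ≤ m := by omega
      exact_mod_cast this
    have hm0 : (0 : ℝ) < m := by linarith [(Nat.cast_nonneg S.card : (0 : ℝ) ≤ S.card)]
    have hm1 : (0 : ℝ) < (m : ℝ) - 1 := by linarith [(Nat.cast_nonneg S.card : (0 : ℝ) ≤ S.card)]
    have h7 : (1 - 1 / (m : ℝ))⁻¹ = m / (m - 1) := by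
      rw [show 1 - 1 / (m : ℝ) = (m - 1) / m by field_simp, inv_div]
    rw [h7]
    have h8 : (m : ℝ) / (m - 1) * ∏ s ∈ S, (1 - 1 / (s : ℝ))⁻¹ ≤ m / (m - 1) * (S.card + 1) :=
      mul_le_mul_of_nonneg_left h3 (by positivity)
    refine h8.trans ?_
    push_cast
    rw [div_mul_eq_mul_div, div_le_iff₀ hm1]
    nlinarith [(Nat.cast_nonneg S.card : (0 : ℝ) ≤ S.card)]

/-- `n ≤ φ(n) (ω(n) + 1)` -/
lemma totient_omega (n : ℕ) : (n : ℝ) ≤ Nat.totient n * (n.primeFactors.card + 1) := by
  have h1 := Nat.totient_eq_mul_prod_factors n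
  have h2 : (Nat.totient n : ℝ) = n * ∏ p ∈ n.primeFactors, (1 - 1 / (p : ℝ)) := by
    have h3 : ((Nat.totient n : ℚ) : ℝ) = ((n * ∏ p ∈ n.primeFactors, (1 - (p : ℚ)⁻¹) : ℚ) : ℝ) := by rw [h1]
    push_cast at h3
    rw [h3]
    simp only [one_div]
  have hpos : ∀ p ∈ n.primeFactors, 0 < 1 - 1 / (p : ℝ) := by
    intro p hp
    have h4 : (2 : ℝ) ≤ p := by exact_mod_cast (Nat.prime_of_mem_primeFactors hp).two_le
    have h5 : 1 / (p : ℝ) ≤ 1 / 2 := one_div_le_one_div_of_le (by norm_num) h4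
    linarith
  have h6 : 0 < ∏ p ∈ n.primeFactors, (1 - 1 / (p : ℝ)) := prod_pos hpos
  have h7 := prod_le n.primeFactors (fun p hp => (Nat.prime_of_mem_primeFactors hp).two_le)
  rw [prod_inv_distrib] at h7
  rw [h2, mul_assoc]
  have h8 : 1 ≤ (∏ p ∈ n.primeFactors, (1 - 1 / (p : ℝ))) * (n.primeFactors.card + 1) := by
    calc (1 : ℝ) = (∏ p ∈ n.primeFactors, (1 - 1 / (p : ℝ))) * (∏ p ∈ n.primeFactors, (1 - 1 / (p : ℝ)))⁻¹ :=
          (mul_inv_cancel₀ h6.ne').symm
      _ ≤ _ := mul_le_mul_of_nonneg_left h7 h6.le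
  nlinarith [(Nat.cast_nonneg n : (0 : ℝ) ≤ n)]

/-- `ω(n) ≤ 2 log n` -/
lemma omega_le {n : ℕ} (hn : 1 ≤ n) : (n.primeFactors.card : ℝ) ≤ 2 * Real.log n := by
  have h1 : 2 ^ n.primeFactors.card ≤ n := by
    calc 2 ^ n.primeFactors.card ≤ ∏ p ∈ n.primeFactors, p :=
          pow_card_le_prod _ _ _ fun p hp => (Nat.prime_of_mem_primeFactors hp).two_le
      _ ≤ n := Nat.le_of_dvd hn (Nat.prod_primeFactors_dvd n)
  have h2 : ((2 : ℝ)) ^ n.primeFactors.card ≤ n := by exact_mod_cast h1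
  have h3 := Real.log_le_log (by positivity) h2
  rw [Real.log_pow] at h3
  have h4 : (1 / 2 : ℝ) ≤ Real.log 2 := by linarith [Real.log_two_gt_d9]
  nlinarith [(Nat.cast_nonneg n.primeFactors.card : (0 : ℝ) ≤ n.primeFactors.card)]

/-- `φ(n) ≥ n / (3 log n)` -/
lemma totient_log {n : ℕ} (hn : 3 ≤ n) : (n : ℝ) ≤ Nat.totient n * (3 * Real.log n) := by
  have h1 := totient_omega n
  have h2 := omega_le (show 1 ≤ n by omega)
  have h3 : 1 ≤ Real.log n := by
    have h4 : Real.exp 1 ≤ n := by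
      have : (3 : ℝ) ≤ n := by exact_mod_cast hn
      linarith [Real.exp_one_lt_d9]
    calc (1 : ℝ) = Real.log (Real.exp 1) := (Real.log_exp 1).symm
      _ ≤ _ := Real.log_le_log (Real.exp_pos 1) h4
  refine h1.trans (mul_le_mul_of_nonneg_left (by linarith) (Nat.cast_nonneg _))

/-- the primes of `(n ^ 2 + y, n ^ 2 + z]` by initial segments of the window -/
lemma primes_eq {u y z : ℕ} (h2 : y ≤ z) :
    (primes (u + y) (u + z) : ℝ) = Thin.count 1 0 u z - Thin.count 1 0 u y := by
  unfold primes Thin.count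
  have h3 : (Ioc u (u + z)).filter (fun p => p.Prime ∧ p % 1 = 0) =
      (Ioc u (u + y)).filter (fun p => p.Prime ∧ p % 1 = 0) ∪ (Ioc (u + y) (u + z)).filter Nat.Prime := by
    ext p
    simp only [mem_union, mem_filter, mem_Ioc]
    constructor
    · rintro ⟨⟨h4, h5⟩, h6, h7⟩
      rcases Nat.lt_or_ge (u + y) p with h8 | h8
      · exact Or.inr ⟨⟨h8, h5⟩, h6⟩
      · exact Or.inl ⟨⟨h4, h8⟩, h6, h7⟩
    · rintro (⟨⟨h4, h5⟩, h6, h7⟩ | ⟨⟨h4, h5⟩, h6⟩)
      · exact ⟨⟨h4, by omega⟩, h6, h7⟩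
      · exact ⟨⟨by omega, h5⟩, h6, Nat.mod_one _⟩
  have h4 : Disjoint ((Ioc u (u + y)).filter (fun p => p.Prime ∧ p % 1 = 0)) ((Ioc (u + y) (u + z)).filter Nat.Prime) := by
    rw [disjoint_left]
    intro p hp hp'
    rw [mem_filter, mem_Ioc] at hp hp'
    omega
  rw [h3, card_union_of_disjoint h4]
  push_cast
  ring

/-- the expected number in an initial segment -/
lemma logSum_sq {n y : ℕ} (hn : 3 ≤ n) (hy : y ≤ n) :
    |Thin.logSum (n ^ 2) y - y / (2 * Real.log n)| ≤ 1 := by
  have hn0 : (3 : ℝ) ≤ n := by exact_mod_cast hn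
  have hl1 : 1 ≤ Real.log n := by
    have h4 : Real.exp 1 ≤ n := by linarith [Real.exp_one_lt_d9]
    calc (1 : ℝ) = Real.log (Real.exp 1) := (Real.log_exp 1).symm
      _ ≤ _ := Real.log_le_log (Real.exp_pos 1) h4
  have hm : ∀ m : ℕ, m ∈ Ioc (n ^ 2) (n ^ 2 + y) → (n : ℝ) ^ 2 ≤ (m : ℝ) ∧ (m : ℝ) ≤ n ^ 2 + n := by
    intro m hm
    rw [mem_Ioc] at hm
    have h1 : ((n ^ 2 : ℕ) : ℝ) ≤ m := by exact_mod_cast hm.1.le
    have h2 : (m : ℝ) ≤ ((n ^ 2 + n : ℕ) : ℝ) := by exact_mod_cast hm.2.trans (by omega)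
    push_cast at h1 h2
    exact ⟨h1, h2⟩
  have hlow : ∀ m : ℕ, m ∈ Ioc (n ^ 2) (n ^ 2 + y) → 2 * Real.log n ≤ Real.log (m : ℝ) := by
    intro m hmm
    calc 2 * Real.log n = Real.log ((n : ℝ) ^ 2) := by rw [Real.log_pow]; norm_num
      _ ≤ _ := Real.log_le_log (by positivity) (hm m hmm).1
  have h3 := Thin.logSum_near (u := n ^ 2) (y := y) (l := 2 * Real.log n) (ε := 1 / n) (by linarith) ?_ ?_
  · refine h3.trans ?_
    have h4 : (y : ℝ) ≤ n := by exact_mod_cast hy
    rw [mul_one_div, div_le_one (by linarith)]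
    exact h4
  · intro m hmm
    linarith [hlow m hmm]
  · intro m hmm
    obtain ⟨h4, h5⟩ := hm m hmm
    have h6 : Real.log (m : ℝ) ≤ 2 * Real.log n + 1 / n := by
      have h7 : Real.log (m : ℝ) ≤ Real.log ((n : ℝ) ^ 2 * (1 + 1 / n)) := by
        apply Real.log_le_log (by nlinarith)
        have : (n : ℝ) ^ 2 * (1 + 1 / n) = n ^ 2 + n := by field_simp
        rw [this]
        exact h5
      rw [Real.log_mul (by positivity) (by positivity), Real.log_pow] at h7
      have h8 := Real.log_le_sub_one_of_pos (show 0 < 1 + 1 / (n : ℝ) by positivity)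
      push_cast at h7
      linarith
    have h9 := hlow m hmm
    have h10 : 0 ≤ 1 / (n : ℝ) := by positivity
    rw [abs_le]
    constructor <;> linarith

/-- the conditions for `N` -/
lemma large (A B : ℕ) : ∃ N₀ : ℕ, ∀ N : ℕ, N₀ ≤ N →
    96 ≤ Real.log N ∧ (Real.log N) ^ A ≤ N ∧ 1 ≤ N * Real.exp (-(B * Real.log (Real.log N) ^ 2)) := by
  have hlog : Filter.Tendsto (fun N : ℕ => Real.log (N : ℝ)) Filter.atTop Filter.atTop :=
    Real.tendsto_log_atTop.comp tendsto_natCast_atTop_atTop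
  have hcast := tendsto_natCast_atTop_atTop (R := ℝ)
  have e1 : ∀ᶠ N : ℕ in Filter.atTop, 96 ≤ Real.log N := hlog.eventually_ge_atTop _
  have e2 : ∀ᶠ x : ℝ in Filter.atTop, ‖Real.log x ^ A‖ ≤ 1 * ‖x‖ :=
    (Real.isLittleO_pow_log_id_atTop (n := A)).bound (by positivity)
  have e4 : ∀ᶠ x : ℝ in Filter.atTop, ‖Real.log x ^ 2‖ ≤ 1 / (B + 1 : ℝ) * ‖x‖ :=
    (Real.isLittleO_pow_log_id_atTop (n := 2)).bound (by positivity)
  have e2' := hcast.eventually e2
  have e4' := hlog.eventually e4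
  obtain ⟨N₁, hN₁⟩ := Filter.eventually_atTop.1 (e1.and (e2'.and e4'))
  refine ⟨N₁, fun X hX => ?_⟩
  obtain ⟨h1, h3, h4⟩ := hN₁ X hX
  have hX0 : (0 : ℝ) < X := by
    rcases Nat.eq_zero_or_pos X with h | h
    · subst h
      norm_num at h1
    · exact_mod_cast h
  refine ⟨h1, ?_, ?_⟩
  · rw [Real.norm_eq_abs, Real.norm_eq_abs, abs_of_nonneg (by positivity), abs_of_nonneg (by positivity)] at h3
    linarith
  · rw [Real.norm_eq_abs, Real.norm_eq_abs, abs_of_nonneg (by positivity), abs_of_nonneg (by linarith)] at h4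
    have hB : (0 : ℝ) ≤ B := Nat.cast_nonneg B
    have h5 : (B + 1) * Real.log (Real.log X) ^ 2 ≤ Real.log X := by
      rw [one_div, inv_mul_eq_div, le_div_iff₀ (by positivity)] at h4
      linarith
    calc (1 : ℝ) = X * Real.exp (-Real.log X) := by rw [Real.exp_neg, Real.exp_log hX0, mul_inv_cancel₀ hX0.ne']
      _ ≤ X * Real.exp (-(B * Real.log (Real.log X) ^ 2)) := by
        apply mul_le_mul_of_nonneg_left _ hX0.le
        apply Real.exp_le_exp.2
        nlinarith [sq_nonneg (Real.log (Real.log X))]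

open Classical in
/-- **The gap from `n ^ 2` to the next prime and `φ(n)`, for almost all `n`, with all classes to all moduli.** -/
theorem result (A : ℕ) : ∃ B N₀ : ℕ, ∀ N : ℕ, N₀ ≤ N →
    (((Icc 1 N).filter (fun n => ¬ Holds A B N n)).card : ℝ) ≤ N / (Real.log N) ^ A := by
  obtain ⟨B, N₁, hmain⟩ := Pool.Agent.helper24_UT.Ch.t_OPP (4 * A + 8)
  obtain ⟨N₂, hlarge⟩ := large (2 * A + 8) B
  refine ⟨B, max (max N₁ N₂) 8, fun N hN => ?_⟩
  have hN1 : N₁ ≤ N := (le_max_left _ _).trans ((le_max_left _ _).trans hN)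
  obtain ⟨hL96, hLN, hQ1⟩ := hlarge N ((le_max_right _ _).trans ((le_max_left _ _).trans hN))
  have hN8 : 8 ≤ N := (le_max_right _ _).trans hN
  have hN0 : (0 : ℝ) < N := by exact_mod_cast (by omega : 0 < N)
  have hexc := hmain N hN1
  set L := Real.log N with hLdef
  have hL0 : 0 < L := by linarith
  have hone : ∀ n : ℕ, 1 ≤ L ^ n := fun n => one_le_pow₀ (by linarith)
  have hpowle : ∀ {a b : ℕ}, a ≤ b → L ^ a ≤ L ^ b := fun h => pow_le_pow_right₀ (by linarith) h
  set T := (N : ℝ) / L ^ (A + 1) with hT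
  have hT0 : 0 < T := by positivity
  have hgood : ∀ n : ℕ, n ≤ N → T < n → Pool.Agent.helper24_UT.Good33 (4 * A + 8) B N n (n ^ 2) → Holds A B N n := by
    intro n hnN hTn hg
    have hnN' : (n : ℝ) ≤ N := by exact_mod_cast hnN
    have hnL : (N : ℝ) ≤ n * L ^ (A + 1) := by
      have := hTn.le
      rwa [hT, div_le_iff₀ (by positivity)] at this
    have hnbig : L ^ (A + 7) ≤ n := by
      have h1 : L ^ (A + 7) * L ^ (A + 1) ≤ n * L ^ (A + 1) := by
        rw [← pow_add]
        calc L ^ (A + 7 + (A + 1)) = L ^ (2 * A + 8) := by ring_nf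
          _ ≤ N := hLN
          _ ≤ _ := hnL
      exact le_of_mul_le_mul_right h1 (by positivity)
    have hn96 : (96 : ℝ) ≤ n := by
      have h1 : L ≤ L ^ (A + 7) := le_self_pow₀ (by linarith) (by omega)
      linarith
    have hn3 : 3 ≤ n := by
      have : (3 : ℝ) ≤ n := by linarith
      exact_mod_cast this
    have hlogn : Real.log n ≤ L := Real.log_le_log (by linarith) hnN'
    have hlogn1 : 1 ≤ Real.log n := by
      have h4 : Real.exp 1 ≤ n := by linarith [Real.exp_one_lt_d9]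
      calc (1 : ℝ) = Real.log (Real.exp 1) := (Real.log_exp 1).symm
        _ ≤ _ := Real.log_le_log (Real.exp_pos 1) h4
    set φ : ℝ := ((Nat.totient n : ℕ) : ℝ) with hφ
    have hφ0 : 0 ≤ φ := Nat.cast_nonneg _
    have hnφ : (n : ℝ) ≤ φ * (3 * L) :=
      (totient_log hn3).trans (mul_le_mul_of_nonneg_left (by linarith) hφ0)
    -- `L ^ (A + 5) ≤ φ`, `N ≤ 3 φ L ^ (A + 2)`
    have hNφ : (N : ℝ) ≤ 3 * φ * L ^ (A + 2) := by
      calc (N : ℝ) ≤ n * L ^ (A + 1) := hnL
        _ ≤ φ * (3 * L) * L ^ (A + 1) := mul_le_mul_of_nonneg_right hnφ (by positivity)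
        _ = _ := by ring
    have hφbig : L ^ (A + 5) ≤ φ := by
      have h1 : L ^ (A + 5) * (L * L) ≤ φ * (L * L) := by
        calc L ^ (A + 5) * (L * L) = L ^ (A + 7) := by ring
          _ ≤ n := hnbig
          _ ≤ φ * (3 * L) := hnφ
          _ ≤ φ * (L * L) := by
            apply mul_le_mul_of_nonneg_left _ hφ0
            exact mul_le_mul_of_nonneg_right (by linarith) hL0.le
      exact le_of_mul_le_mul_right h1 (by positivity)
    set E := φ / L ^ (A + 1) with hE
    have hE0 : 0 ≤ E := by positivity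
    have hEbig : 96 ≤ E := by
      rw [hE, le_div_iff₀ (by positivity)]
      calc 96 * L ^ (A + 1) ≤ L * L ^ (A + 1) := mul_le_mul_of_nonneg_right hL96 (by positivity)
        _ = L ^ (A + 2) := by ring
        _ ≤ L ^ (A + 5) := hpowle (by omega)
        _ ≤ φ := hφbig
    -- the number of primes in an initial segment
    have hinit : ∀ y : ℕ, y ≤ n → |(Thin.count 1 0 (n ^ 2) y : ℝ) - y / (2 * Real.log n)| ≤ E / 8 := by
      intro y hy
      have h5 := hg 1 (by rw [Nat.cast_one]; exact hQ1) (fun _ _ => y) (fun _ _ => hy)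
      simp only [Thin.count_eq] at h5
      have hres : (range 1).filter (fun r : ℕ => r.Coprime 1) = {0} := by
        ext r
        rw [mem_filter, mem_range, mem_singleton]
        constructor
        · rintro ⟨h6, _⟩
          omega
        · rintro rfl
          exact ⟨by omega, Nat.coprime_one_right 0⟩
      rw [Icc_self, sum_singleton, hres, sum_singleton, Nat.totient_one, Nat.cast_one, div_one, one_mul] at h5
      have h6 : |(Thin.count 1 0 (n ^ 2) y : ℝ) - Thin.logSum (n ^ 2) y| ≤ N / L ^ (2 * A + 4) := by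
        apply abs_le_of_sq_le_sq _ (by positivity)
        rw [div_pow, ← pow_mul, show (2 * A + 4) * 2 = 4 * A + 8 by ring]
        exact h5
      have h7 : (N : ℝ) / L ^ (2 * A + 4) ≤ E / 16 := by
        calc (N : ℝ) / L ^ (2 * A + 4) ≤ (3 * φ * L ^ (A + 2)) / L ^ (2 * A + 4) :=
              div_le_div_of_nonneg_right hNφ (by positivity)
          _ = 3 / L * E := by
            rw [hE, show 2 * A + 4 = (A + 2) + (A + 1) + 1 by ring, pow_add L (A + 2 + (A + 1)) 1, pow_add L (A + 2) (A + 1)]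
            field_simp
          _ ≤ 1 / 16 * E := by
            apply mul_le_mul_of_nonneg_right _ hE0
            rw [div_le_iff₀ hL0]
            linarith
          _ = E / 16 := by ring
      calc |(Thin.count 1 0 (n ^ 2) y : ℝ) - y / (2 * Real.log n)| ≤
            |(Thin.count 1 0 (n ^ 2) y : ℝ) - Thin.logSum (n ^ 2) y| +
            |Thin.logSum (n ^ 2) y - y / (2 * Real.log n)| := abs_sub_le _ _ _
        _ ≤ E / 16 + 1 := add_le_add (h6.trans h7) (logSum_sq hn3 hy)
        _ ≤ E / 8 := by linarith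
    have hEA : E ≤ φ / L ^ A := by
      rw [hE]
      exact div_le_div_of_nonneg_left hφ0 (by positivity) (hpowle (by omega))
    have hφn : Nat.totient n ≤ n := Nat.totient_le n
    refine ⟨?_, ?_, ?_⟩
    · -- (1)
      set z := ⌊φ / L ^ A⌋₊ with hz
      have hz1 : (z : ℝ) ≤ φ / L ^ A := Nat.floor_le (by positivity)
      have hz2 : φ / L ^ A < z + 1 := Nat.lt_floor_add_one _
      have hzn : z ≤ n := by
        have h1 : (z : ℝ) ≤ n := by
          calc (z : ℝ) ≤ φ / L ^ A := hz1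
            _ ≤ φ := div_le_self hφ0 (hone A)
            _ ≤ n := by
              rw [hφ]
              exact_mod_cast hφn
        exact_mod_cast h1
      have h2 := hinit z hzn
      have h3 : 0 < (Thin.count 1 0 (n ^ 2) z : ℝ) := by
        have h4 : E / 4 ≤ z / (2 * Real.log n) := by
          rw [le_div_iff₀ (by linarith)]
          have h5 : E * L = φ / L ^ A := by
            rw [hE, pow_succ]
            field_simp
          have h6 : E / 4 * (2 * Real.log n) ≤ E / 4 * (2 * L) :=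
            mul_le_mul_of_nonneg_left (by linarith) (by positivity)
          have h7 : 96 ≤ E * L := by nlinarith
          nlinarith
        have h8 := (abs_le.1 h2).1
        linarith
      have h4 : 0 < Thin.count 1 0 (n ^ 2) z := by exact_mod_cast h3
      unfold Thin.count at h4
      obtain ⟨p, hp⟩ := card_pos.1 h4
      rw [mem_filter, mem_Ioc] at hp
      have h5 : q n ≤ p := Nat.sInf_le ⟨hp.2.1, hp.1.1⟩
      have h6 : a n ≤ z := by
        unfold a
        omega
      have h7 : (a n : ℝ) ≤ z := by exact_mod_cast h6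
      exact h7.trans hz1
    · -- (2)
      intro y z hyz hzn
      rw [primes_eq hyz]
      have h1 := hinit z hzn
      have h2 := hinit y (hyz.trans hzn)
      rw [abs_le] at h1 h2 ⊢
      have h3 : ((z : ℝ) - y) / (2 * Real.log n) = z / (2 * Real.log n) - y / (2 * Real.log n) := by ring
      rw [h3]
      constructor
      · linarith [h1.1, h2.2]
      · linarith [h1.2, h2.1]
    · -- (3)
      intro Q hQ y hy
      have h1 := hg Q hQ y hy
      simp only [Thin.count_eq] at h1
      have h2 : ∑ q ∈ Icc 1 Q, ∑ r ∈ (range q).filter (fun r => r.Coprime q),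
          ((count q r (n ^ 2) (y q r) : ℝ) - logSum (n ^ 2) (y q r) / Nat.totient q) ^ 2 ≤ (N : ℝ) ^ 2 / L ^ (4 * A + 8) := by
        refine le_trans (le_of_eq ?_) h1
        apply sum_congr rfl
        intro q _
        apply sum_congr rfl
        intro r _
        unfold logSum
        congr 2
        ring
      refine h2.trans ?_
      apply div_le_div_of_nonneg_left (by positivity) (by positivity)
      exact hpowle (by omega)
  -- collect
  have hsub : (Icc 1 N).filter (fun n => ¬ Holds A B N n) ⊆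
      ((Icc 1 N).filter (fun n => ¬ (Pool.Agent.helper24_UT.Good33 (4 * A + 8) B N n (n ^ 2 - n) ∧
        Pool.Agent.helper24_UT.Good33 (4 * A + 8) B N n (n ^ 2)))) ∪ ((Icc 1 N).filter (fun n : ℕ => (n : ℝ) ≤ T)) := by
    intro n hn
    rw [mem_filter] at hn
    rw [mem_union, mem_filter, mem_filter]
    by_contra hcon
    rw [not_or] at hcon
    apply hn.2
    apply hgood n (mem_Icc.1 hn.1).2
    · by_contra h1
      exact hcon.2 ⟨hn.1, not_lt.1 h1⟩
    · by_contra h1
      exact hcon.1 ⟨hn.1, fun h2 => h1 h2.2⟩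
  have hcard2 : (((Icc 1 N).filter (fun n : ℕ => (n : ℝ) ≤ T)).card : ℝ) ≤ (1 / 2) * (N / L ^ A) := by
    have h5 : (Icc 1 N).filter (fun n : ℕ => (n : ℝ) ≤ T) ⊆ Icc 1 ⌊T⌋₊ := by
      intro n hn
      rw [mem_filter, mem_Icc] at hn
      rw [mem_Icc]
      exact ⟨hn.1.1, Nat.le_floor hn.2⟩
    have h6 := card_le_card h5
    rw [Nat.card_Icc, Nat.add_sub_cancel] at h6
    refine (Nat.cast_le.2 h6).trans ((Nat.floor_le hT0.le).trans ?_)
    rw [hT, pow_succ]
    calc (N : ℝ) / (L ^ A * L) ≤ N / (L ^ A * 2) := by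
          apply div_le_div_of_nonneg_left hN0.le (by positivity)
          exact mul_le_mul_of_nonneg_left (by linarith) (by positivity)
      _ = _ := by ring
  have hcard1 : (((Icc 1 N).filter (fun n => ¬ (Pool.Agent.helper24_UT.Good33 (4 * A + 8) B N n (n ^ 2 - n) ∧
        Pool.Agent.helper24_UT.Good33 (4 * A + 8) B N n (n ^ 2)))).card : ℝ) ≤ (1 / 2) * (N / L ^ A) := by
    refine hexc.trans ?_
    calc (N : ℝ) / L ^ (4 * A + 8) ≤ N / (L ^ A * 2) := by
          apply div_le_div_of_nonneg_left hN0.le (by positivity)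
          calc L ^ A * 2 ≤ L ^ A * L := mul_le_mul_of_nonneg_left (by linarith) (by positivity)
            _ = L ^ (A + 1) := by ring
            _ ≤ L ^ (4 * A + 8) := hpowle (by omega)
      _ = _ := by ring
  calc (((Icc 1 N).filter (fun n => ¬ Holds A B N n)).card : ℝ) ≤
      (((Icc 1 N).filter (fun n => ¬ (Pool.Agent.helper24_UT.Good33 (4 * A + 8) B N n (n ^ 2 - n) ∧
        Pool.Agent.helper24_UT.Good33 (4 * A + 8) B N n (n ^ 2)))).card : ℝ) +
      ((Icc 1 N).filter (fun n : ℕ => (n : ℝ) ≤ T)).card := by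
        have := (card_le_card hsub).trans (card_union_le _ _)
        exact_mod_cast this
    _ ≤ (1 / 2) * (N / L ^ A) + (1 / 2) * (N / L ^ A) := add_le_add hcard1 hcard2
    _ = _ := by ring

end Pool.Agent.Helper481.Totient
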